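import Mathlib.Algebra.Group.Subgroup.Lattice
import Mathlib.Order.Lattice.Nat
import Mathlib.Algebra.BigOperators.Group.List.Defs

/-! Word hyperbolic groups. -/

namespace Pool.Agent.MP_8ac6f3_ag.KH

/-- The word length of `g` with respect to `S`: the least length of a word in `S` and the inverses
of its elements with product `g`. -/
noncomputable def wl {G : Type} [Group G] (S : Set G) (g : G) : ℕ :=
  sInf {k | ∃ l : List G, l.length = k ∧ (∀ s ∈ l, s ∈ S ∨ s⁻¹ ∈ S) ∧ l.prod = g}

/-- A group is word hyperbolic if it has a finite generating set whose word metric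
`d x y = wl S (x⁻¹ * y)` satisfies the four point condition of Gromov. -/
def HypGrp (G : Type) [Group G] : Prop :=
  ∃ (S : Finset G) (δ : ℕ), Subgroup.closure (S : Set G) = ⊤ ∧ ∀ x y z w : G,
    wl S (x⁻¹ * y) + wl S (z⁻¹ * w) ≤
      max (wl S (x⁻¹ * z) + wl S (y⁻¹ * w)) (wl S (x⁻¹ * w) + wl S (y⁻¹ * z)) + δ

end Pool.Agent.MP_8ac6f3_ag.KH
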