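import Mathlib.GroupTheory.GroupAction.Defs
import Mathlib.Data.Int.Star
import Mathlib.Data.Set.Finite.List
import Mathlib.MeasureTheory.Integral.CurveIntegral.Poincare
import Pool.Agent.MP_8ac6f3_ag.kh8.GDefs
import Pool.Agent.MP_8ac6f3_ag.C2
import Pool.Agent.MP_8ac6f3_ag.kh.Sta
import Pool.Agent.MP_8ac6f3_ag.kh.Point
import Pool.Agent.MP_8ac6f3_ag.kh.Exh

-- ======== part 0: formerly Pool.Agent.MP_8ac6f3_ag.kh8.Grp
section MrgPart0

/-! Real two-cocycles on a hyperbolic group are weakly bounded. -/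

namespace Pool.Agent.MP_8ac6f3_ag.KH

namespace Grp

variable {G : Type} [Group G] {S : Set G} {c : G → G → ℝ}

/-- Words in `S` and the inverses. -/
def Wd (S : Set G) (l : List G) : Prop := ∀ s ∈ l, s ∈ S ∨ s⁻¹ ∈ S

theorem Wd.append {l l' : List G} (h : Wd S l) (h' : Wd S l') : Wd S (l ++ l') := fun s hs =>
  (List.mem_append.1 hs).elim (h s) (h' s)

theorem Wd.take {l : List G} (h : Wd S l) (i : ℕ) : Wd S (l.take i) := fun s hs =>
  h s (List.mem_of_mem_take hs)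

theorem Wd.drop {l : List G} (h : Wd S l) (i : ℕ) : Wd S (l.drop i) := fun s hs =>
  h s (List.mem_of_mem_drop hs)

theorem wl_le {l : List G} (h : Wd S l) : wl S l.prod ≤ l.length := Nat.sInf_le ⟨l, rfl, h, rfl⟩

theorem wl_inv_le {l : List G} (h : Wd S l) : wl S l.prod⁻¹ ≤ l.length := by
  rw [List.prod_inv_reverse]
  refine (wl_le fun s hs => ?_).trans (by simp)
  obtain ⟨t, ht, rfl⟩ := List.mem_map.1 (List.mem_reverse.1 hs)
  rw [inv_inv]; exact (h t ht).symm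

theorem geo (hS : Subgroup.closure S = ⊤) (g : G) :
    ∃ l, Wd S l ∧ l.prod = g ∧ l.length = wl S g := by
  have h1 : g ∈ (Subgroup.closure S).toSubmonoid := by rw [hS]; trivial
  rw [Subgroup.closure_toSubmonoid] at h1
  obtain ⟨l, h2, h3⟩ := Submonoid.exists_list_of_mem_closure h1
  obtain ⟨l', h4, h5, h6⟩ := Nat.sInf_mem (s := {k | ∃ l : List G, l.length = k ∧
    (∀ s ∈ l, s ∈ S ∨ s⁻¹ ∈ S) ∧ l.prod = g}) ⟨_, l, rfl, fun s hs => h2 s hs, h3⟩
  exact ⟨l', h5, h6, h4⟩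

theorem wl_inv (hS : Subgroup.closure S = ⊤) (g : G) : wl S g⁻¹ ≤ wl S g := by
  obtain ⟨l, h1, rfl, h2⟩ := geo hS g
  exact h2 ▸ wl_inv_le h1

theorem fin_ball (hS : Subgroup.closure S = ⊤) (hf : S.Finite) (r : ℕ) :
    {g | wl S g ≤ r}.Finite := by
  have : Finite (S ∪ S⁻¹ : Set G) := hf.union hf.inv
  refine ((List.finite_length_le (S ∪ S⁻¹ : Set G) r).image
    fun l => (l.map Subtype.val).prod).subset fun g hg => ?_
  obtain ⟨l, h1, h2, h3⟩ := geo hS g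
  lift l to List (S ∪ S⁻¹ : Set G) using h1
  exact ⟨l, by simpa [← h3] using hg, h2⟩

/-- The sum of the cocycle along the path that starts at `g`. -/
def circ (c : G → G → ℝ) : G → List G → ℝ
  | _, [] => 0
  | g, s :: l => c g s + circ c (g * s) l

theorem circ_append (g : G) (l l' : List G) :
    circ c g (l ++ l') = circ c g l + circ c (g * l.prod) l' := by
  induction l generalizing g with
  | nil => simp [circ]
  | cons s l ih => simp [circ, ih, mul_assoc, add_assoc]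

theorem circ_eq (hc : ∀ g h k, c g h + c (g * h) k = c g (h * k) + c h k) (g : G) (l : List G) :
    circ c g l = circ c 1 l + c g l.prod - c 1 1 := by
  have h1 : ∀ g k, c g 1 = c 1 k := fun g k => by
    have := hc g 1 k
    rw [mul_one, one_mul] at this
    linarith
  induction l generalizing g with
  | nil => simp [circ, h1 g 1]
  | cons s l ih =>
    rw [circ, circ, ih, ih (1 * s), one_mul, List.prod_cons]
    linarith [hc g s l.prod, h1 1 s]

theorem circ_le {r : ℕ} {C : ℝ} (hC : ∀ g, wl S g ≤ r → ∀ s, (s ∈ S ∨ s⁻¹ ∈ S) → |c g s| ≤ C)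
    (g : G) (l : List G) (hl : Wd S l) (h : ∀ i, wl S (g * (l.take i).prod) ≤ r) :
    |circ c g l| ≤ C * l.length := by
  induction l generalizing g with
  | nil => simp [circ]
  | cons s l ih =>
    have h1 := hC g (by simpa using h 0) s (hl s (by simp))
    have h2 := ih (g * s) (fun t ht => hl t (by simp [ht])) fun i => by
      simpa [mul_assoc] using h (i + 1)
    rw [circ, List.length_cons, Nat.cast_succ]
    linarith [abs_add_le (c g s) (circ c (g * s) l)]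

/-- The linear bound for closed paths. -/
theorem closed (hS : Subgroup.closure S = ⊤) (hf : S.Finite) {δ : ℕ}
    (hδ : ∀ x y z w : G, wl S (x⁻¹ * y) + wl S (z⁻¹ * w) ≤
      max (wl S (x⁻¹ * z) + wl S (y⁻¹ * w)) (wl S (x⁻¹ * w) + wl S (y⁻¹ * z)) + δ)
    (hc : ∀ g h k, c g h + c (g * h) k = c g (h * k) + c h k) :
    ∃ C : ℝ, 0 ≤ C ∧ ∀ l, Wd S l → l.prod = 1 → |circ c 1 l| ≤ C * l.length := by
  obtain ⟨C, hC⟩ := (((fin_ball hS hf (2 * (δ + 1))).prod (hf.union hf.inv)).image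
    fun p => |c p.1 p.2|).bddAbove
  have hC' : ∀ g, wl S g ≤ 2 * (δ + 1) → ∀ s, (s ∈ S ∨ s⁻¹ ∈ S) → |c g s| ≤ max C 0 :=
    fun g hg s hs => le_max_of_le_left (hC ⟨(g, s), ⟨hg, hs⟩, rfl⟩)
  have h0 : 0 ≤ max C 0 := le_max_right _ _
  generalize max C 0 = D at hC' h0
  have short : ∀ u, Wd S u → u.length ≤ 2 * (δ + 1) → |circ c 1 u| ≤ D * (2 * (δ + 1)) :=
    fun u hu h => (circ_le hC' 1 u hu fun i => by
      rw [one_mul]
      exact (wl_le (hu.take i)).trans ((List.length_take_le' _ _).trans h)).trans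
      (mul_le_mul_of_nonneg_left (by exact_mod_cast h) h0)
  refine ⟨D * (4 * (δ + 1)), by positivity, fun l => ?_⟩
  induction hN : l.length using Nat.strong_induction_on generalizing l with
  | _ N ih =>
  intro hl h1
  by_cases hb : ∀ i, wl S (l.take i).prod ≤ 2 * (δ + 1)
  · refine (circ_le hC' 1 l hl fun i => by rw [one_mul]; exact hb i).trans ?_
    rw [hN]
    have : (0 : ℝ) ≤ δ := Nat.cast_nonneg _
    exact mul_le_mul_of_nonneg_right (by nlinarith) (Nat.cast_nonneg _)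
  obtain ⟨m, -, hm⟩ := (Finset.range (N + 1)).exists_max_image (fun i => wl S (l.take i).prod)
    ⟨0, by simp⟩
  have hm' : ∀ i, wl S (l.take i).prod ≤ wl S (l.take m).prod := fun i => by
    rcases le_total i N with h | h
    · exact hm i (by simpa [Nat.lt_succ_iff] using h)
    · have := hm N (by simp)
      rw [List.take_of_length_le hN.le] at this
      rwa [List.take_of_length_le (hN.le.trans h)]
  have hR : 2 * (δ + 1) < wl S (l.take m).prod := by
    by_contra h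
    exact hb fun i => (hm' i).trans (not_lt.1 h)
  have a1 := (wl_le (hl.take m)).trans (List.length_take_le _ _)
  have a2 : wl S (l.take m).prod ≤ N - m := by
    rw [eq_inv_of_mul_eq_one_left ((List.prod_take_mul_prod_drop l m).trans h1)]
    exact (wl_inv_le (hl.drop m)).trans (by simp [hN])
  obtain ⟨j, rfl⟩ : ∃ j, m = j + (δ + 1) := ⟨m - (δ + 1), by omega⟩
  have e1 : l.take (j + (δ + 1)) = l.take j ++ (l.drop j).take (δ + 1) := List.take_add
  have e2 : l.take (j + (δ + 1) + (δ + 1)) =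
      l.take (j + (δ + 1)) ++ (l.drop (j + (δ + 1))).take (δ + 1) := List.take_add
  have e3 : l = l.take j ++ ((l.drop j).take (δ + 1) ++ (l.drop (j + (δ + 1))).take (δ + 1)) ++
      l.drop (j + (δ + 1) + (δ + 1)) := by
    rw [← List.append_assoc, ← e1, ← e2, List.take_append_drop]
  have w1 := hl.take j
  have w2 := (hl.drop j).take (δ + 1)
  have w3 := (hl.drop (j + (δ + 1))).take (δ + 1)
  have w4 := hl.drop (j + (δ + 1) + (δ + 1))
  have l2 : ((l.drop j).take (δ + 1)).length = δ + 1 := by simp [hN]; omega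
  have l3 : ((l.drop (j + (δ + 1))).take (δ + 1)).length = δ + 1 := by simp [hN]; omega
  have b1 := hm' j
  have b2 := hm' (j + (δ + 1) + (δ + 1))
  rw [e2, e1] at b2
  rw [e1] at b1
  generalize l.take j = p, (l.drop j).take (δ + 1) = u,
    (l.drop (j + (δ + 1))).take (δ + 1) = v, l.drop (j + (δ + 1) + (δ + 1)) = q at *
  have k := hδ p.prod (p ++ u ++ v).prod 1 (p ++ u).prod
  have b3 := wl_inv hS p.prod
  have b4 := wl_inv hS (p ++ u ++ v).prod
  have b5 := wl_le w2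
  have b6 := wl_inv_le w3
  simp only [List.prod_append, mul_inv_rev, mul_assoc, inv_mul_cancel_left, inv_one, one_mul,
    mul_one, inv_mul_cancel] at k b1 b2 b3 b4
  obtain ⟨u', g1, g2, g3⟩ := geo hS (u ++ v).prod
  have g4 : u'.length ≤ 2 * δ + 1 := by rw [g3, List.prod_append]; omega
  subst e3
  have g5 : (p ++ u' ++ q).length + 1 ≤ N := by
    simp only [← hN, List.length_append]; omega
  have i1 := ih _ g5 _ rfl ((w1.append g1).append w4) (by simpa [g2, mul_assoc] using h1)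
  have i2 := short u' g1 (by omega)
  have i3 := short (u ++ v) (w2.append w3) (by rw [List.length_append]; omega)
  have i4 : circ c 1 (p ++ (u ++ v) ++ q) =
      circ c 1 (p ++ u' ++ q) + circ c 1 (u ++ v) - circ c 1 u' := by
    rw [circ_append, circ_append, circ_append 1 (p ++ u'), circ_append 1 p u', circ_eq hc _ u',
      circ_eq hc (1 * p.prod), List.prod_append (l₁ := p), List.prod_append (l₁ := p), g2]
    ring
  have i5 : D * (4 * (δ + 1)) * ((p ++ u' ++ q).length + 1 : ℕ) ≤ D * (4 * (δ + 1)) * N :=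
    mul_le_mul_of_nonneg_left (by exact_mod_cast g5) (by positivity)
  rw [i4, abs_le] at *
  push_cast at i5
  constructor <;> linarith [i1.1, i1.2, i2.1, i2.2, i3.1, i3.2]

end Grp

open Grp in
theorem potential {G : Type} [Group G] (h : HypGrp G) (c : G → G → ℝ)
    (hc : ∀ g h k, c g h + c (g * h) k = c g (h * k) + c h k) :
    ∃ f : G → ℝ, ∀ s, ∃ C, ∀ g, |c g s + f (g * s) - f g| ≤ C := by
  obtain ⟨S, δ, hS, hδ⟩ := h
  obtain ⟨C, -, hC⟩ := closed hS S.finite_toSet hδ hc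
  choose w hw hw' _ using geo hS
  let P : G → Set ℝ := fun g => {x | ∃ l, Wd (S : Set G) l ∧ l.prod = g ∧
    x = C * l.length - circ c 1 l}
  have hb : ∀ g, BddBelow (P g) := fun g => ⟨circ c g (w g⁻¹) - C * (w g⁻¹).length, by
    rintro _ ⟨l, h1, rfl, rfl⟩
    have := (abs_le.1 (hC _ (h1.append (hw l.prod⁻¹)) (by simp [hw']))).2
    rw [circ_append, one_mul, List.length_append, Nat.cast_add] at this
    linarith⟩
  have key : ∀ g s, c g s + sInf (P (g * s)) - sInf (P g) ≤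
      C * (w s).length - circ c 1 (w s) + c 1 1 := fun g s => by
    have : sInf (P (g * s)) + c g s - (C * (w s).length - circ c 1 (w s) + c 1 1) ≤ sInf (P g) :=
      le_csInf ⟨_, w g, hw g, hw' g, rfl⟩ (by
        rintro _ ⟨l, h1, rfl, rfl⟩
        have := csInf_le (hb (l.prod * s)) ⟨l ++ w s, h1.append (hw s), by simp [hw'], rfl⟩
        rw [circ_append, one_mul, List.length_append, Nat.cast_add, circ_eq hc l.prod, hw'] at this
        linarith)
    linarith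
  refine ⟨fun g => sInf (P g), fun s => ⟨max (C * (w s).length - circ c 1 (w s) + c 1 1)
    (C * (w s⁻¹).length - circ c 1 (w s⁻¹) - c s s⁻¹), fun g => abs_le.2 ⟨?_, ?_⟩⟩⟩
  · have h1 := key (g * s) s⁻¹
    have h2 := hc g s s⁻¹
    have h3 : c g 1 = c 1 1 := by simpa using hc g 1 1
    rw [mul_inv_cancel_right] at h1
    rw [mul_inv_cancel] at h2
    exact neg_le.1 (le_max_of_le_right (by linarith))
  · exact le_max_of_le_left (key g s)

end Pool.Agent.MP_8ac6f3_ag.KH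

end MrgPart0

-- ======== part 1: formerly Pool.Agent.MP_8ac6f3_ag.kh8.TSpec
section MrgPart1

/-! Statements of the topological rows of PROJECT KH, second stage. -/

open Set Filter
open scoped Topology

namespace Pool.Agent.MP_8ac6f3_ag.KH

/-- Every real two-cocycle of the group has a potential. -/
def Pot2 (Γ : Type) [Group Γ] : Prop :=
  ∀ c : Γ → Γ → ℝ, (∀ g h k, c g h + c (g * h) k = c g (h * k) + c h k) →
    ∃ f : Γ → ℝ, ∀ s, ∃ C, ∀ g, |c g s + f (g * s) - f g| ≤ C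

/-- Row DECK: the deck group of the universal covering. -/
def Deck : Prop :=
  ∀ (X Y : Type) [TopologicalSpace X] [TopologicalSpace Y] [ConnectedSpace X]
    [SimplyConnectedSpace Y] [LocallyPathConnectedSpace Y] (p : Y → X), IsCoveringMap p →
    ∀ x₀ : X, ∃ (Γ : Type) (_ : Group Γ) (_ : MulAction Γ Y),
      IsQuotientCoveringMap p Γ ∧ Nonempty (FundamentalGroup X x₀ ≃* Γ)

/-- Row H1: locally constant one-cocycles on a simply connected open set are coboundaries. -/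
def H1 (Y : Type) [TopologicalSpace Y] : Prop :=
  ∀ (W : Set Y) (ι : Type) (V : ι → Set Y) (t : ι → ι → Y → ℝ), IsOpen W → IsSimplyConnected W →
    (∀ i, IsOpen (V i)) → (∀ y ∈ W, ∃ i, y ∈ V i) →
    (∀ i j, ∀ y ∈ W, y ∈ V i → y ∈ V j → ∀ᶠ z in 𝓝 y, t i j z = t i j y) →
    (∀ i j k, ∀ y ∈ W, y ∈ V i → y ∈ V j → y ∈ V k → t j k y - t i k y + t i j y = 0) →
    ∃ b : ι → Y → ℝ, (∀ i, ∀ y ∈ W, y ∈ V i → ∀ᶠ z in 𝓝 y, b i z = b i y) ∧
      ∀ i j, ∀ y ∈ W, y ∈ V i → y ∈ V j → t i j y = b j y - b i y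

/-- Row CECH: two-cocycles become coboundaries on a finer cover. -/
def Cech (Y : Type) [TopologicalSpace Y] : Prop :=
  ∀ (ι : Type) (V : ι → Set Y) (c : ι → ι → ι → ℝ), (∀ i, IsOpen (V i)) → (∀ y, ∃ i, y ∈ V i) →
    (∀ i j k l y, y ∈ V i → y ∈ V j → y ∈ V k → y ∈ V l →
      c j k l - c i k l + c i j l - c i j k = 0) →
    ∃ (O : Y → Set Y) (r : Y → ι) (a : Y → Y → ℝ),
      (∀ x, IsOpen (O x) ∧ x ∈ O x ∧ O x ⊆ V (r x)) ∧
      ∀ x y z w, w ∈ O x → w ∈ O y → w ∈ O z → a y z - a x z + a x y = c (r x) (r y) (r z)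

variable {Y A : Type} [TopologicalSpace Y]

/-- `L α β f y` says that near `y` the function `f` is a transition function from `α` to `β`.
Transition functions exist locally and are unique up to locally constant functions. -/
structure Loc (U : A → Set Y) (L : A → A → (Y → ℝ) → Y → Prop) : Prop where
  opn : ∀ α, IsOpen (U α)
  sc : ∀ α, IsSimplyConnected (U α)
  cov : ∀ y, ∃ α, y ∈ U α
  ex : ∀ α β y, y ∈ U α → y ∈ U β → ∃ f, ∀ᶠ z in 𝓝 y, L α β f z
  add : ∀ α β γ f g y, y ∈ U α → y ∈ U β → y ∈ U γ → L α β f y → L β γ g y →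
    L α γ (fun z => f z + g z) y
  neg : ∀ α β f y, L α β f y → L β α (fun z => -f z) y
  const : ∀ α f y, L α α f y → ∀ᶠ z in 𝓝 y, f z = f y
  congr : ∀ α β f g y (t : ℝ), L α β f y → (∀ᶠ z in 𝓝 y, g z = f z + t) → L α β g y
  cont : ∀ α β f y, L α β f y → ContinuousAt f y

/-- A cover with three scales. -/
def Scl (U : A → Set Y) (L : A → A → (Y → ℝ) → Y → Prop) : Prop :=
  ∃ (V W : Y → Set Y) (a : Y → A),
    (∀ x, IsOpen (V x) ∧ IsPreconnected (V x) ∧ x ∈ V x ∧ V x ⊆ W x ∧ W x ⊆ U (a x)) ∧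
    (∀ x y, (V x ∩ V y).Nonempty → V x ⊆ W y ∧ W x ⊆ U (a y)) ∧
    ∀ x β, W x ⊆ U β → ∃ f, ∀ w ∈ W x, L (a x) β f w

/-- Transition functions on a fine cover whose coboundary is constant. -/
def Fine (U : A → Set Y) (L : A → A → (Y → ℝ) → Y → Prop) : Prop :=
  ∃ (V : Y → Set Y) (a : Y → A) (h : Y → Y → Y → ℝ) (c : Y → Y → Y → ℝ),
    (∀ x, IsOpen (V x) ∧ x ∈ V x ∧ V x ⊆ U (a x)) ∧
    (∀ x y w, w ∈ V x → w ∈ V y → L (a x) (a y) (h x y) w) ∧
    ∀ x y z w, w ∈ V x → w ∈ V y → w ∈ V z → h y z w - h x z w + h x y w = c x y z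

/-- A cocycle of transition functions. -/
def Glob (U : A → Set Y) (L : A → A → (Y → ℝ) → Y → Prop) (g : A → A → Y → ℝ) : Prop :=
  (∀ α β y, y ∈ U α → y ∈ U β → L α β (g α β) y) ∧
    ∀ α β γ y, y ∈ U α → y ∈ U β → y ∈ U γ → g β γ y - g α γ y + g α β y = 0

/-- A bounded cocycle of transition functions. -/
def BGlob (U K : A → Set Y) (L : A → A → (Y → ℝ) → Y → Prop) : Prop :=
  ∃ (g : A → A → Y → ℝ) (C : ℝ), Glob U L g ∧ ∀ α β y, y ∈ K α → y ∈ K β → |g α β y| ≤ C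

/-- A group acts on the data, freely and with finitely many orbits. -/
structure Eqv (Γ : Type) [Group Γ] [MulAction Γ Y] [MulAction Γ A] (U K : A → Set Y)
    (L : A → A → (Y → ℝ) → Y → Prop) : Prop where
  cont : ∀ g : Γ, Continuous fun y : Y => g • y
  free : ∀ (g : Γ) (α : A), g • α = α → g = 1
  fin : ∃ J : Set A, J.Finite ∧ ∀ α, ∃ g : Γ, ∃ j ∈ J, α = g • j
  U_smul : ∀ (g : Γ) α y, y ∈ U α → g • y ∈ U (g • α)
  K_smul : ∀ (g : Γ) α y, y ∈ K α → g • y ∈ K (g • α)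
  L_smul : ∀ (g : Γ) α β f y, y ∈ U α → y ∈ U β → L (g • α) (g • β) f (g • y) →
    L α β (fun z => f (g • z)) y
  K_cpt : ∀ α, IsCompact (K α)
  K_sub : ∀ α, K α ⊆ U α
  K_fin : ∀ α, {β | (K α ∩ K β).Nonempty}.Finite

variable {U : A → Set Y} {L : A → A → (Y → ℝ) → Y → Prop}

/-- Two transition functions differ by a locally constant function. -/
theorem Loc.sub (h : Loc U L) {α β : A} {f g : Y → ℝ} {y : Y} (hα : y ∈ U α) (hβ : y ∈ U β)
    (hf : L α β f y) (hg : L α β g y) : ∀ᶠ z in 𝓝 y, f z - g z = f y - g y := by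
  simpa only [sub_eq_add_neg] using
    h.const α _ y (h.add α β α _ _ y hα hβ hα hf (h.neg α β g y hg))

/-- The coboundary of three transition functions is locally constant. -/
theorem Loc.tri (h : Loc U L) {α β γ : A} {f g k : Y → ℝ} {y : Y} (hα : y ∈ U α) (hβ : y ∈ U β)
    (hγ : y ∈ U γ) (hf : L α β f y) (hg : L β γ g y) (hk : L α γ k y) :
    ∀ᶠ z in 𝓝 y, g z - k z + f z = g y - k y + f y := by
  filter_upwards [h.sub hα hγ (h.add α β γ f g y hα hβ hγ hf hg) hk] with z hz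
  linarith

/-- A locally constant function on a preconnected set is constant. -/
theorem const_of_ev {s : Set Y} (hs : IsPreconnected s) {f : Y → ℝ}
    (h : ∀ y ∈ s, ∀ᶠ z in 𝓝 y, f z = f y) {x y : Y} (hx : x ∈ s) (hy : y ∈ s) : f x = f y := by
  refine hs.induction₂' (fun a b => f a = f b) (fun a ha => ?_) (fun _ _ _ _ _ _ => Eq.trans) hx hy
  exact ((h a ha).mono fun z hz => ⟨hz.symm, hz⟩).filter_mono nhdsWithin_le_nhds

theorem Pot2.of_equiv {Γ Γ' : Type} [Group Γ] [Group Γ'] (h : Pot2 Γ) (e : Γ ≃* Γ') :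
    Pot2 Γ' := fun c hc => by
  obtain ⟨f, hf⟩ := h (fun g k => c (e g) (e k)) fun g k l => by simpa using hc _ _ _
  refine ⟨fun g => f (e.symm g), fun s => ?_⟩
  obtain ⟨C, hC⟩ := hf (e.symm s)
  exact ⟨C, fun g => by simpa using hC (e.symm g)⟩

end Pool.Agent.MP_8ac6f3_ag.KH

end MrgPart1

-- ======== part 2: formerly Pool.Agent.MP_8ac6f3_ag.kh8.Deck
section MrgPart2

/-! PROJECT KH, second stage, row DECK: the deck group of the universal covering. -/

open Set Filter Function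
open scoped Topology

namespace Pool.Agent.MP_8ac6f3_ag.KH

namespace DeckP

variable {X Y : Type} [TopologicalSpace X] [TopologicalSpace Y] {p : Y → X}

theorem surj [ConnectedSpace X] [Nonempty Y] (hp : IsCoveringMap p) : Surjective p := by
  refine range_eq_univ.1 (IsClopen.eq_univ ⟨⟨isOpen_iff_mem_nhds.2 fun x hx => ?_⟩,
    hp.isOpenMap.isOpen_range⟩ (range_nonempty p))
  obtain ⟨-, U, hxU, hU, -, H, -⟩ := hp x
  refine mem_of_superset (hU.mem_nhds hxU) ?_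
  rintro _ hy ⟨y, rfl⟩
  exact hx ⟨(H ⟨y, hy⟩).2.1, (H ⟨y, hy⟩).2.2⟩

/-- the group of deck transformations -/
def grp (p : Y → X) : Subgroup (Equiv.Perm Y) where
  carrier := {φ | Continuous φ ∧ Continuous φ.symm ∧ ∀ y, p (φ y) = p y}
  one_mem' := ⟨continuous_id, continuous_id, fun _ => rfl⟩
  mul_mem' := fun {_ ψ} h h' => ⟨h.1.comp h'.1, h'.2.1.comp h.2.1, fun y =>
    (h.2.2 (ψ y)).trans (h'.2.2 y)⟩
  inv_mem' := fun {φ} h => ⟨h.2.1, h.1, fun y =>
    (h.2.2 (φ.symm y)).symm.trans (congrArg p (φ.apply_symm_apply y))⟩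

theorem trans [SimplyConnectedSpace Y] [LocallyPathConnectedSpace Y] (hp : IsCoveringMap p)
    {a b : Y} (h : p a = p b) : ∃ φ : grp p, φ • b = a := by
  obtain ⟨F, ⟨F0, hF⟩, -⟩ := hp.existsUnique_continuousMap_lifts ⟨p, hp.continuous⟩ b a h
  obtain ⟨G, ⟨G0, hG⟩, -⟩ := hp.existsUnique_continuousMap_lifts ⟨p, hp.continuous⟩ a b h.symm
  have e1 : ∀ y, p (F y) = p y := congrFun hF
  have e2 : ∀ y, p (G y) = p y := congrFun hG
  have l : (fun y => G (F y)) = id := hp.eq_of_comp_eq (G.continuous.comp F.continuous)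
    continuous_id (funext fun y => (e2 _).trans (e1 y)) b (by rw [F0, G0]; rfl)
  have r : (fun y => F (G y)) = id := hp.eq_of_comp_eq (F.continuous.comp G.continuous)
    continuous_id (funext fun y => (e1 _).trans (e2 y)) a (by rw [G0, F0]; rfl)
  exact ⟨⟨⟨F, G, congrFun l, congrFun r⟩, F.continuous, G.continuous, e1⟩, F0⟩

theorem quot [ConnectedSpace X] [SimplyConnectedSpace Y] [LocallyPathConnectedSpace Y]
    (hp : IsCoveringMap p) : IsQuotientCoveringMap p (grp p) := by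
  refine (isQuotientCoveringMap_iff_isCoveringMap_and p _).2 ⟨hp, surj hp, ⟨fun φ => φ.2.1⟩,
    { right_cancel' := fun φ ψ y e => ?_ }, fun {a b} => ⟨trans hp, ?_⟩⟩
  · exact Subtype.ext (DFunLike.coe_injective (hp.eq_of_comp_eq φ.2.1 ψ.2.1
      (funext fun z => (φ.2.2.2 z).trans (ψ.2.2.2 z).symm) y e))
  · rintro ⟨φ, rfl⟩
    exact φ.2.2.2 b

end DeckP

theorem deck : Deck := by
  intro X Y _ _ _ _ _ p hp x₀
  obtain ⟨y, hy⟩ := DeckP.surj hp x₀
  exact ⟨DeckP.grp p, inferInstance, inferInstance, DeckP.quot hp,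
    ⟨((DeckP.quot hp).fundamentalGroupEquiv ⟨y, hy⟩).trans (MulEquiv.inv' _).symm⟩⟩

end Pool.Agent.MP_8ac6f3_ag.KH

end MrgPart2

-- ======== part 3: formerly Pool.Agent.MP_8ac6f3_ag.kh8.H1
section MrgPart3

/-! PROJECT KH, second stage, row H1: locally constant one-cocycles on a simply connected open
set are coboundaries. -/

open Set Filter
open scoped Topology

namespace Pool.Agent.MP_8ac6f3_ag.KH

theorem h1 {Y : Type} [TopologicalSpace Y] [LocallyPathConnectedSpace Y] : H1 Y := by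
  classical
  intro W ι V t hW hs hV hcov hloc hc
  have : SimplyConnectedSpace W := hs
  have : LocallyPathConnectedSpace W := hW.locallyPathConnectedSpace
  choose r hr using fun y : W => hcov y y.2
  have hv : ∀ y : W, Tendsto Subtype.val (𝓝 y) (𝓝 (y : Y)) := fun y =>
    continuous_subtype_val.continuousAt
  obtain ⟨s, hs'⟩ := C2P.cocycle (Q := Multiplicative ℝ) (fun a : W => Subtype.val ⁻¹' V (r a))
    (fun a => (hV _).preimage continuous_subtype_val) hr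
    (fun a b y => Multiplicative.ofAdd (t (r a) (r b) y))
    (fun a b y hy => ((hv y).eventually (hloc _ _ y y.2 hy.1 hy.2)).mono fun z hz => congrArg _ hz)
    (fun a b c y hy => by
      rw [← ofAdd_add]
      exact congrArg _ (by linarith [hc _ _ _ y y.2 hy.1.1 hy.1.2 hy.2]))
  refine ⟨fun i z => if h : z ∈ W then t (r ⟨z, h⟩) i z + (s ⟨z, h⟩).toAdd else 0,
    fun i y hy hi => ?_, fun i j y hy hi hj => ?_⟩
  · rw [← hW.isOpenEmbedding_subtypeVal.map_nhds_eq ⟨y, hy⟩, eventually_map]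
    filter_upwards [hs' ⟨y, hy⟩ ⟨y, hy⟩ (hr _),
      (hv ⟨y, hy⟩).eventually (hloc _ i y hy (hr ⟨y, hy⟩) hi),
      (hv ⟨y, hy⟩).eventually ((hV _).mem_nhds (hr ⟨y, hy⟩)),
      (hv ⟨y, hy⟩).eventually ((hV i).mem_nhds hi)] with z e1 e2 e3 e4
    have e5 := congrArg Multiplicative.toAdd e1
    simp only [toAdd_mul, toAdd_ofAdd] at e5
    have e6 := hc _ _ i z z.2 (hr z) e3 e4
    have e7 := hc _ _ i y hy (hr ⟨y, hy⟩) (hr ⟨y, hy⟩) hi
    rw [dif_pos z.2, dif_pos hy]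
    simp only [Subtype.coe_eta]
    linarith
  · simp only [dif_pos hy]
    linarith [hc _ i j y hy (hr ⟨y, hy⟩) hi hj]

end Pool.Agent.MP_8ac6f3_ag.KH

end MrgPart3

-- ======== part 4: formerly Pool.Agent.MP_8ac6f3_ag.kh8.Prism
section MrgPart4

/-! Locally constant cocycles of degree one and two on a contractible space. -/

open Set Filter Finset
open scoped Topology

namespace Pool.Agent.MP_8ac6f3_ag.KH

variable {Y ι : Type} [TopologicalSpace Y]

/-- `f` is constant near `y`. -/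
def LC (f : Y → ℝ) (y : Y) : Prop := ∀ᶠ z in 𝓝 y, f z = f y

theorem LC.const (c : ℝ) (y : Y) : LC (fun _ => c) y := Eventually.of_forall fun _ => rfl

theorem LC.add {f g : Y → ℝ} {y : Y} (hf : LC f y) (hg : LC g y) : LC (fun z => f z + g z) y :=
  (hf.and hg).mono fun _ h => by simp only [h.1, h.2]

theorem LC.sub {f g : Y → ℝ} {y : Y} (hf : LC f y) (hg : LC g y) : LC (fun z => f z - g z) y :=
  (hf.and hg).mono fun _ h => by simp only [h.1, h.2]

theorem LC.congr {f g : Y → ℝ} {y : Y} (hf : LC f y) (h : f =ᶠ[𝓝 y] g) : LC g y :=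
  (hf.and h).mono fun _ k => by rw [← k.2, k.1, h.self_of_nhds]

theorem LC.comp {Z : Type} [TopologicalSpace Z] {f : Y → ℝ} {g : Z → Y} {z : Z} (hf : LC f (g z))
    (hg : ContinuousAt g z) : LC (fun w => f (g w)) z := hg.eventually hf

theorem LC.sum {κ : Type} {T : Finset κ} {f : κ → Y → ℝ} {y : Y} (h : ∀ i ∈ T, LC (f i) y) :
    LC (fun z => ∑ i ∈ T, f i z) y :=
  ((eventually_all_finset T).2 h).mono fun _ k => sum_congr rfl k

namespace Prism

theorem contr (Y : Type) [TopologicalSpace Y] [ContractibleSpace Y] :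
    ∃ (H : ℝ → Y → Y) (y₀ : Y), Continuous (fun p : ℝ × Y => H p.1 p.2) ∧
      (∀ z, H 0 z = y₀) ∧ ∀ t, 1 ≤ t → ∀ z, H t z = z := by
  obtain ⟨y₀, ⟨F⟩⟩ := id_nullhomotopic Y
  refine ⟨fun t z => F.symm (projIcc 0 1 zero_le_one t, z), y₀, by fun_prop, fun z => ?_,
    fun t ht z => ?_⟩
  · simp
  · simp only [projIcc_of_right_le _ ht]; exact F.symm.apply_one z

/-- The index path at level `M`. -/
def ix (N : ℕ) (α : ℕ → ι) (M j : ℕ) : ι := α (j * N / M)

theorem ix_eq {N e : ℕ} (hN : 0 < N) (α : ℕ → ι) (j : ℕ) : ix N α (N * e) j = α (j / e) := by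
  rw [ix, mul_comm j, Nat.mul_div_mul_left _ _ hN]

theorem paths {V : ι → Set Y} (hV : ∀ i, IsOpen (V i)) (hc : ∀ y, ∃ i, y ∈ V i) {H : ℝ → Y → Y}
    (hH : Continuous fun p : ℝ × Y => H p.1 p.2) (y : Y) :
    ∃ (O : Set Y) (N : ℕ) (α : ℕ → ι), IsOpen O ∧ y ∈ O ∧ 0 < N ∧ ∀ M : ℕ, 0 < M → N ∣ M →
      ∀ z ∈ O, ∀ j ≤ M, ∀ t ∈ Icc ((j : ℝ) / M) ((j + 1) / M), H t z ∈ V (ix N α M j) := by
  obtain ⟨δ, hδ, h⟩ := lebesgue_number_lemma_of_metric (isCompact_Icc (a := (0 : ℝ)) (b := 1))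
    (c := fun i => (fun t => H t y) ⁻¹' V i) (fun i => (hV i).preimage (by fun_prop))
    fun t _ => mem_iUnion.2 (hc _)
  obtain ⟨N, hN⟩ := exists_nat_one_div_lt hδ
  have hN0 : (0 : ℝ) < N + 1 := by positivity
  have key : ∀ j : ℕ, ∃ i, j ≤ N + 1 → ∀ᶠ z in 𝓝 y,
      ∀ t ∈ Icc ((j : ℝ) / (N + 1)) ((j + 1) / (N + 1)), H t z ∈ V i := fun j => by
    by_cases hj : j ≤ N + 1
    · obtain ⟨i, hi⟩ := h (j / (N + 1)) ⟨by positivity, by
        rw [div_le_one hN0]; exact_mod_cast hj⟩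
      refine ⟨i, fun _ => isCompact_Icc.eventually_forall_of_forall_eventually fun t ht => ?_⟩
      refine (hH.comp continuous_swap).continuousAt.eventually ((hV i).mem_nhds (hi ?_))
      rw [Metric.mem_ball, Real.dist_eq, Prod.fst_swap, abs_of_nonneg (sub_nonneg.2 ht.1)]
      have := ht.2
      rw [add_div] at this
      linarith
    · exact ⟨(hc y).choose, fun h => absurd h hj⟩
  choose α hα using key
  obtain ⟨O, h1, h2, h3⟩ := eventually_nhds_iff.1
    ((eventually_all_finset (range (N + 2))).2 fun j hj => hα j (by simpa [Nat.lt_succ_iff] using hj))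
  refine ⟨O, N + 1, α, h2, h3, N.succ_pos, ?_⟩
  rintro _ hM ⟨e, rfl⟩ z hz j hj t ht
  have he : 0 < e := Nat.pos_of_mul_pos_left hM
  have he' : (0 : ℝ) < e := by exact_mod_cast he
  rw [ix_eq N.succ_pos]
  refine h1 z hz _ (mem_range.2 (Nat.lt_succ_of_le (Nat.div_le_of_le_mul (by linarith)))) t
    ⟨le_trans ?_ ht.1, ht.2.trans ?_⟩
  · rw [Nat.cast_mul, Nat.cast_succ, ← mul_div_mul_right _ _ he'.ne']
    gcongr
    exact_mod_cast Nat.div_mul_le_self j e
  · rw [Nat.cast_mul, Nat.cast_succ, ← mul_div_mul_right (_ + 1) (N + 1 : ℝ) he'.ne']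
    gcongr
    have := Nat.lt_div_mul_add (a := j) he
    rw [add_mul, one_mul]
    exact_mod_cast this

/-- The sum along an index path. -/
noncomputable def T {κ : Type} (q : κ → κ → Y → ℝ) (γ : ℝ → Y) (M : ℕ) (α : ℕ → κ) : ℝ :=
  ∑ j ∈ range M, q (α j) (α (j + 1)) (γ ((j + 1) / M))

omit [TopologicalSpace Y] in
theorem T_refine {κ : Type} {q : κ → κ → Y → ℝ} (hq : ∀ i y, q i i y = 0) (γ : ℝ → Y) (M : ℕ)
    (α : ℕ → κ) {d : ℕ} (hd : 0 < d) : T q γ (M * d) (fun j => α (j / d)) = T q γ M α := by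
  have key : ∀ K : ℕ, ∑ j ∈ range (K * d), q (α (j / d)) (α ((j + 1) / d))
      (γ ((j + 1) / (M * d : ℕ))) = ∑ j ∈ range K, q (α j) (α (j + 1)) (γ ((j + 1) / M)) := by
    intro K
    induction K with
    | zero => simp
    | succ K ih =>
      obtain ⟨e, rfl⟩ : ∃ e, d = e + 1 := ⟨d - 1, by omega⟩
      have e1 : ∀ k ≤ e, (K * (e + 1) + k) / (e + 1) = K := fun k hk => by
        rw [mul_comm, Nat.mul_add_div hd, Nat.div_eq_of_lt (by omega), add_zero]
      rw [Nat.succ_mul, sum_range_add, ih, sum_range_succ, sum_range_succ,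
        sum_eq_zero (s := range e), zero_add, e1 e le_rfl, add_assoc, ← Nat.succ_mul,
        Nat.mul_div_cancel _ hd]
      · congr 3
        push_cast
        rw [← mul_div_mul_right (K + 1 : ℝ) _ (by positivity : (e + 1 : ℝ) ≠ 0)]
        congr 1; ring
      · intro k hk
        rw [add_assoc, e1 k (mem_range.1 hk).le, e1 (k + 1) (mem_range.1 hk), hq]
  exact key M

theorem tele {κ : Type} (F : κ → Y → ℝ) {γ : ℝ → Y} (hγ : Continuous γ) {M : ℕ} (hM : 0 < M)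
    {α : ℕ → κ} (h : ∀ j < M, ∀ t ∈ Icc ((j : ℝ) / M) ((j + 1) / M), LC (F (α j)) (γ t)) :
    T (fun i i' y => F i' y - F i y) γ M α = F (α M) (γ 1) - F (α 0) (γ 0) := by
  have hM' : (0 : ℝ) < M := by exact_mod_cast hM
  have := sum_range_sub (fun j : ℕ => F (α j) (γ (j / M))) M
  rw [div_self hM'.ne', Nat.cast_zero, zero_div] at this
  rw [← this]
  refine sum_congr rfl fun j hj => ?_
  have hle : (j : ℝ) / M ≤ (j + 1) / M := by gcongr; linarith
  rw [Nat.cast_succ, isPreconnected_Icc.induction₂' (fun s t => F (α j) (γ s) = F (α j) (γ t))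
    (fun t ht => mem_nhdsWithin_of_mem_nhds (((h j (mem_range.1 hj) t ht).comp
      hγ.continuousAt).mono fun s hs => ⟨hs.symm, hs⟩)) (fun _ _ _ _ _ _ => Eq.trans)
    (left_mem_Icc.2 hle) (right_mem_Icc.2 hle)]

theorem ix_mul {N M : ℕ} (hN : 0 < N) (h : N ∣ M) (α : ℕ → ι) (d j : ℕ) :
    ix N α (M * d) j = ix N α M (j / d) := by
  obtain ⟨e, rfl⟩ := h
  rw [mul_assoc, ix_eq hN, ix_eq hN, Nat.div_div_eq_div_mul, mul_comm]

/-- A contraction together with index paths. -/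
theorem sys [ContractibleSpace Y] {V : ι → Set Y} (hV : ∀ i, IsOpen (V i))
    (hc : ∀ y, ∃ i, y ∈ V i) :
    ∃ (H : ℝ → Y → Y) (y₀ : Y) (O : Y → Set Y) (N : Y → ℕ) (α : Y → ℕ → ℕ → ι) (r s : Y → ι),
      (∀ y, IsOpen (O y) ∧ y ∈ O y ∧ O y ⊆ V (r y) ∧ 0 < N y) ∧
      (∀ y M d j, N y ∣ M → α y (M * d) j = α y M (j / d)) ∧
      (∀ (κ : Type) (q : κ → κ → Y → ℝ) (M : ℕ) (β : ℕ → κ) (z : Y),
        (∀ j < M, ∀ w, (∀ y, z ∈ O y → N y ∣ M → w ∈ V (α y M j) ∧ w ∈ V (α y M (j + 1))) →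
          LC (q (β j) (β (j + 1))) w) → LC (fun w => T q (fun t => H t w) M β) z) ∧
      (∀ y M, 0 < M → α y M M = r y ∧ α y M 0 = s y) ∧
      ∀ (κ : Type) (F : κ → Y → ℝ) (M : ℕ) (β : ℕ → κ) (z : Y), 0 < M →
        (∀ j w, (∀ y, z ∈ O y → N y ∣ M → w ∈ V (α y M j)) → LC (F (β j)) w) →
        T (fun i i' y => F i' y - F i y) (fun t => H t z) M β = F (β M) z - F (β 0) y₀ := by
  obtain ⟨H, y₀, hH, h0, h1⟩ := contr Y
  choose O N α o1 o2 hN ho using paths hV hc hH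
  have hle : ∀ (M : ℕ) (s : ℝ), s / M ≤ (s + 1) / M := fun M s => by gcongr; linarith
  refine ⟨H, y₀, O, N, fun y => ix (N y) (α y), fun y => α y (N y), fun y => α y 0,
    fun y => ⟨o1 y, o2 y, fun z hz => ?_, hN y⟩, fun y M d j h => ix_mul (hN y) h _ d j,
    fun κ q M β z h => LC.sum fun j hj => ?_, fun y M hM => ?_, fun κ F M β z hM h => ?_⟩
  · have := ho y _ (hN y) dvd_rfl z hz _ le_rfl _ (right_mem_Icc.2 (hle _ _))
    rwa [h1 _ (by rw [one_le_div (by exact_mod_cast hN y)]; linarith), ix,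
      Nat.mul_div_cancel _ (hN y)] at this
  · have hj := mem_range.1 hj
    refine (h j hj _ fun y hz hd => ⟨ho y M (by omega) hd z hz j hj.le _
      (right_mem_Icc.2 (hle _ _)), ho y M (by omega) hd z hz (j + 1) hj _ ?_⟩).comp
      (g := fun z => H ((j + 1) / M) z) (by fun_prop)
    rw [Nat.cast_succ]; exact left_mem_Icc.2 (hle _ _)
  · simp only [ix, zero_mul, Nat.zero_div, Nat.mul_div_cancel_left _ hM, and_self]
  · rw [tele F (by fun_prop) hM fun j hj t ht => h j _ fun y hz hd => ho y M hM hd z hz j hj.le t ht,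
      h0, h1 1 le_rfl]

end Prism

open Prism

/-- A locally constant cocycle of degree one is a coboundary. -/
theorem prim1 [ContractibleSpace Y] {V : ι → Set Y} (hV : ∀ i, IsOpen (V i))
    (hc : ∀ y, ∃ i, y ∈ V i) (k : ι → Y → ℝ)
    (hk : ∀ i j y, y ∈ V i → y ∈ V j → LC (fun z => k i z - k j z) y) :
    ∃ u : Y → ℝ, ∀ i, ∀ y ∈ V i, LC (fun z => u z - k i z) y := by
  obtain ⟨H, y₀, O, N, α, r, s, ho, hα, h1, h2, h3⟩ := sys hV hc
  obtain ⟨P, hP⟩ : ∃ P : Y → ℕ → Y → ℝ, P = fun y M z =>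
    T (fun i i' y => k i' y - k i y) (fun t => H t z) M (α y M) := ⟨_, rfl⟩
  have p1 : ∀ y d z, 0 < d → P y (N y * d) z = P y (N y) z := fun y d z hd => by
    simp only [hP]
    rw [← T_refine (fun _ _ => sub_self _) _ (N y) _ hd]
    congr 1; funext j
    exact hα y _ d j dvd_rfl
  have p2 : ∀ y y', ∀ z ∈ O y, z ∈ O y' → k (r y) z - P y (N y) z - k (s y) y₀ =
      k (r y') z - P y' (N y') z - k (s y') y₀ := fun y y' z hz hz' => by
    have hM := Nat.mul_pos (ho y).2.2.2 (ho y').2.2.2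
    have := h3 _ (fun i : ι × ι => fun z => k i.1 z - k i.2 z) _
      (fun j => (α y (N y * N y') j, α y' (N y * N y') j)) z hM
      fun j w hw => hk _ _ _ (hw y hz (Dvd.intro _ rfl)) (hw y' hz' (Dvd.intro_left _ rfl))
    rw [← p1 y _ z (ho y').2.2.2, ← p1 y' _ z (ho y).2.2.2, mul_comm (N y')]
    simp only [h2 _ _ hM] at this
    have e : P y (N y * N y') z - P y' (N y * N y') z = _ := Eq.trans (by
      simp only [hP, T, ← sum_sub_distrib]
      exact sum_congr rfl fun _ _ => by ring) this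
    linarith
  refine ⟨fun z => k (r z) z - P z (N z) z - k (s z) y₀, fun i y hy => ?_⟩
  have l1 : LC (P y (N y)) y := hP ▸ h1 _ _ _ _ y fun j _ w hw =>
    hk _ _ _ (hw y (ho y).2.1 dvd_rfl).2 (hw y (ho y).2.1 dvd_rfl).1
  refine (((hk _ _ _ ((ho y).2.2.1 (ho y).2.1) hy).sub l1).sub (LC.const (k (s y) y₀) y)).congr ?_
  filter_upwards [(ho y).1.mem_nhds (ho y).2.1] with z hz
  linarith [p2 y z z hz (ho z).2.1]

/-- A locally constant cocycle of degree two is a coboundary on a finer cover. -/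
theorem prism2 [ContractibleSpace Y] {V : ι → Set Y} (hV : ∀ i, IsOpen (V i))
    (hc : ∀ y, ∃ i, y ∈ V i) (h : ι → ι → Y → ℝ)
    (hl : ∀ i j k y, y ∈ V i → y ∈ V j → y ∈ V k → LC (fun z => h j k z - h i k z + h i j z) y) :
    ∃ (O : Y → Set Y) (r : Y → ι) (a : Y → Y → Y → ℝ),
      (∀ y, IsOpen (O y) ∧ y ∈ O y ∧ O y ⊆ V (r y)) ∧
      (∀ y y' z, z ∈ O y → z ∈ O y' → LC (a y y') z) ∧
      ∀ y y' y'' z, z ∈ O y → z ∈ O y' → z ∈ O y'' → a y' y'' z - a y y'' z + a y y' z =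
        h (r y') (r y'') z - h (r y) (r y'') z + h (r y) (r y') z := by
  obtain ⟨H, y₀, O, N, α, r, s, ho, hα, h1, h2, h3⟩ := sys hV hc
  obtain ⟨q, hq⟩ : ∃ q : ι × ι → ι × ι → Y → ℝ, q = fun i j w => h i.1 j.1 w - h i.1 i.1 w +
    h j.1 j.2 w - h i.2 j.2 w + h i.2 i.2 w - h i.1 i.2 w := ⟨_, rfl⟩
  obtain ⟨P, hP⟩ : ∃ P : Y → Y → ℕ → Y → ℝ, P = fun y y' M z =>
    T q (fun t => H t z) M fun j => (α y M j, α y' M j) := ⟨_, rfl⟩
  have p1 : ∀ y y' d z, 0 < d → P y y' (N y * N y' * d) z = P y y' (N y * N y') z :=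
    fun y y' d z hd => by
      simp only [hP]
      rw [← T_refine (fun _ _ => by simp only [hq]; ring) _ (N y * N y') _ hd]
      congr 1; funext j
      rw [hα y _ d j (Dvd.intro _ rfl), hα y' _ d j (Dvd.intro_left _ rfl)]
  refine ⟨O, r, fun y y' z => P y y' (N y * N y') z + h (s y) (s y') y₀,
    fun y => ⟨(ho y).1, (ho y).2.1, (ho y).2.2.1⟩, fun y y' z hz hz' => LC.add ?_ (LC.const _ _),
    fun y y' y'' z hz hz' hz'' => ?_⟩
  · rw [hP]
    refine h1 _ _ _ _ z fun j _ w hw => ?_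
    obtain ⟨a1, a2⟩ := hw y hz (Dvd.intro _ rfl)
    obtain ⟨b1, b2⟩ := hw y' hz' (Dvd.intro_left _ rfl)
    refine ((((hl _ _ _ w a1 a2 b2).sub (hl _ _ _ w a1 b1 b2)).sub (hl _ _ _ w a1 a1 a1)).add
      (hl _ _ _ w b1 b1 b1)).congr (Eventually.of_forall fun v => ?_)
    simp only [hq]; ring
  · have hM := Nat.mul_pos (Nat.mul_pos (ho y).2.2.2 (ho y').2.2.2) (ho y'').2.2.2
    have := h3 _ (fun i : ι × ι × ι => fun z => h i.2.1 i.2.2 z - h i.1 i.2.2 z + h i.1 i.2.1 z) _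
      (fun j => (α y (N y * N y' * N y'') j, α y' (N y * N y' * N y'') j,
        α y'' (N y * N y' * N y'') j)) z hM
      fun j w hw => hl _ _ _ _ (hw y hz ⟨_, mul_assoc _ _ _⟩) (hw y' hz' ⟨N y * N y'', by ring⟩)
        (hw y'' hz'' (Dvd.intro_left _ rfl))
    simp only [h2 _ _ hM] at this
    have e : P y' y'' (N y * N y' * N y'') z - P y y'' (N y * N y' * N y'') z +
        P y y' (N y * N y' * N y'') z = _ := Eq.trans (by
      simp only [hP, T, ← sum_sub_distrib, ← sum_add_distrib]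
      exact sum_congr rfl fun _ _ => by simp only [hq]; ring) this
    have e1 := p1 y' y'' _ z (ho y).2.2.2
    have e2 := p1 y y'' _ z (ho y').2.2.2
    rw [mul_comm _ (N y), ← mul_assoc] at e1
    rw [mul_right_comm] at e2
    linarith [p1 y y' _ z (ho y'').2.2.2]

end Pool.Agent.MP_8ac6f3_ag.KH

end MrgPart4

-- ======== part 5: formerly Pool.Agent.MP_8ac6f3_ag.kh8.Glob
section MrgPart5

/-! Row GLOB: a cocycle of transition functions on a contractible space. -/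

open Set Filter
open scoped Topology

namespace Pool.Agent.MP_8ac6f3_ag.KH

variable {Y A : Type} [TopologicalSpace Y] {U : A → Set Y} {L : A → A → (Y → ℝ) → Y → Prop}

theorem glob [ContractibleSpace Y] (h : Loc U L) (h1 : H1 Y) (hs : Scl U L) :
    ∃ g, Glob U L g := by
  obtain ⟨V, W, a, hV, hVW, hW⟩ := hs
  have k1 : ∀ x y, ∃ f, ∀ w, w ∈ V x → w ∈ V y → L (a x) (a y) f w := fun x y => by
    by_cases c : (V x ∩ V y).Nonempty
    · obtain ⟨f, hf⟩ := hW x _ (hVW x y c).2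
      exact ⟨f, fun w hw _ => hf w ((hV x).2.2.2.1 hw)⟩
    · exact ⟨0, fun w h1 h2 => absurd ⟨w, h1, h2⟩ c⟩
  choose f hf using k1
  have hU : ∀ x, V x ⊆ U (a x) := fun x => (hV x).2.2.2.1.trans (hV x).2.2.2.2
  obtain ⟨O, r, a', hO, ha, ha'⟩ := prism2 (fun x => (hV x).1) (fun y => ⟨y, (hV y).2.2.1⟩) f
    fun i j k y hi hj hk =>
      h.tri (hU _ hi) (hU _ hj) (hU _ hk) (hf _ _ _ hi hj) (hf _ _ _ hj hk) (hf _ _ _ hi hk)
  have hOU : ∀ x w, w ∈ O x → w ∈ U (a (r x)) := fun x w hw => hU _ ((hO x).2.2 hw)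
  have g0 : ∀ x y w, w ∈ O x → w ∈ O y →
      L (a (r x)) (a (r y)) (fun z => f (r x) (r y) z - a' x y z) w := fun x y w hx hy =>
    h.congr _ _ _ _ w (-a' x y w) (hf _ _ _ ((hO x).2.2 hx) ((hO y).2.2 hy))
      ((ha x y w hx hy).mono fun z hz => by rw [hz]; ring)
  have k2 : ∀ α x, ∃ (e : Y → ℝ) (P : Set Y), IsOpen P ∧ P ⊆ O x ∧ (x ∈ U α → x ∈ P) ∧
      ∀ z ∈ P, L α (a (r x)) e z := fun α x => by
    by_cases c : x ∈ U α
    · obtain ⟨e, he⟩ := h.ex α _ x c (hOU x x (hO x).2.1)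
      obtain ⟨P, p1, p2, p3⟩ := eventually_nhds_iff.1 (he.and ((hO x).1.mem_nhds (hO x).2.1))
      exact ⟨e, P, p2, fun z hz => (p1 z hz).2, fun _ => p3, fun z hz => (p1 z hz).1⟩
    · exact ⟨0, ∅, isOpen_empty, empty_subset _, fun c' => absurd c' c, fun _ hz => hz.elim⟩
  choose e P p1 p2 p3 p4 using k2
  choose b b1 b2 using fun α => h1 (U α) Y (P α)
    (fun x y z => f (r x) (r y) z - a' x y z - e α y z + e α x z) (h.opn α) (h.sc α) (p1 α)
    (fun y hy => ⟨y, p3 α y hy⟩)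
    (fun x y w hw hx hy => h.tri hw (hOU x w (p2 α x hx)) (hOU y w (p2 α y hy)) (p4 α x w hx)
      (g0 x y w (p2 α x hx) (p2 α y hy)) (p4 α y w hy))
    fun x y z w _ hx hy hz => by
      linarith [ha' x y z w (p2 α x hx) (p2 α y hy) (p2 α z hz)]
  refine ⟨fun α β w => e α w w + b α w w - (e β w w + b β w w), fun α β y hα hβ => ?_,
    fun _ _ _ _ _ _ _ => by ring⟩
  refine h.congr _ _ _ _ y (b α y y - b β y y) (h.add α _ β _ _ y hα (hOU y y (hO y).2.1) hβ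
    (p4 α y y (p3 α y hα)) (h.neg _ _ _ _ (p4 β y y (p3 β y hβ)))) ?_
  filter_upwards [(h.opn α).mem_nhds hα, (h.opn β).mem_nhds hβ, (p1 α y).mem_nhds (p3 α y hα),
    (p1 β y).mem_nhds (p3 β y hβ), b1 α y y hα (p3 α y hα), b1 β y y hβ (p3 β y hβ)]
    with z z1 z2 z3 z4 z5 z6
  linarith [b2 α y z z z1 z3 (p3 α z z1), b2 β y z z z2 z4 (p3 β z z2)]

end Pool.Agent.MP_8ac6f3_ag.KH

end MrgPart5

-- ======== part 6: formerly Pool.Agent.MP_8ac6f3_ag.kh8.Bnd
section MrgPart6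

/-! PROJECT KH, second stage, row BND: a group potential gives a bounded cocycle. -/

open Set Filter
open scoped Topology

namespace Pool.Agent.MP_8ac6f3_ag.KH

variable {Y A : Type} [TopologicalSpace Y] {U K : A → Set Y} {L : A → A → (Y → ℝ) → Y → Prop}

namespace Bnd

/-- the action changes the cocycle by a constant coboundary -/
theorem exists_k [SimplyConnectedSpace Y] {Γ : Type} [Group Γ] [MulAction Γ Y] [MulAction Γ A]
    (h : Loc U L) (h1 : H1 Y) (he : Eqv Γ U K L) {g : A → A → Y → ℝ} (hg : Glob U L g) (γ : Γ) :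
    ∃ k : A → ℝ, ∀ α β y, y ∈ U α → y ∈ U β →
      g (γ • α) (γ • β) (γ • y) - g α β y = k β - k α := by
  have hu : IsSimplyConnected (univ : Set Y) :=
    (Homeomorph.Set.univ Y).toHomotopyEquiv.simplyConnectedSpace
  obtain ⟨b, b1, b2⟩ := h1 univ A U (fun α β y => g (γ • α) (γ • β) (γ • y) - g α β y)
    isOpen_univ hu h.opn (fun y _ => h.cov y)
    (fun α β y _ hα hβ => h.sub hα hβ (he.L_smul γ α β _ y hα hβ
      (hg.1 _ _ _ (he.U_smul γ α y hα) (he.U_smul γ β y hβ))) (hg.1 α β y hα hβ))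
    (fun α β δ y _ hα hβ hδ => by
      have e1 := hg.2 α β δ y hα hβ hδ
      have e2 := hg.2 _ _ _ _ (he.U_smul γ α y hα) (he.U_smul γ β y hβ) (he.U_smul γ δ y hδ)
      linarith)
  have hx : ∀ α, ∃ x, x ∈ U α := fun α => (h.sc α).isPathConnected.nonempty
  choose x hx using hx
  have hc : ∀ α y, y ∈ U α → b α y = b α (x α) := fun α y hy =>
    const_of_ev (h.sc α).isPathConnected.isConnected.isPreconnected
      (fun z hz => b1 α z trivial hz) hy (hx α)
  exact ⟨fun α => b α (x α), fun α β y hα hβ => by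
    rw [b2 α β y trivial hα hβ, hc α y hα, hc β y hβ]⟩

/-- a function of the index that agrees on overlapping sets is constant -/
theorem const_idx [SimplyConnectedSpace Y] (h : Loc U L) {D : A → ℝ}
    (hD : ∀ α β y, y ∈ U α → y ∈ U β → D α = D β) (α β : A) : D α = D β := by
  choose r hr using h.cov
  obtain ⟨x, hx⟩ := (h.sc α).isPathConnected.nonempty
  obtain ⟨y, hy⟩ := (h.sc β).isPathConnected.nonempty
  have e : D (r x) = D (r y) :=
    const_of_ev (f := fun z => D (r z)) isPreconnected_univ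
      (fun z _ => mem_of_superset ((h.opn (r z)).mem_nhds (hr z))
        fun w hw => hD _ _ w (hr w) hw) trivial trivial
  rw [hD α _ x hx (hr x), e, hD _ β y (hr y) hy]

end Bnd

theorem bnd [T2Space Y] [SimplyConnectedSpace Y] {Γ : Type} [Group Γ] [MulAction Γ Y]
    [MulAction Γ A] (h : Loc U L) (h1 : H1 Y) (he : Eqv Γ U K L) (hp : Pot2 Γ)
    (hg : ∃ g, Glob U L g) : BGlob U K L := by
  obtain ⟨g, hg⟩ := hg
  choose k0 hk0 using Bnd.exists_k h h1 he hg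
  obtain ⟨y0⟩ : Nonempty Y := inferInstance
  obtain ⟨α0, -⟩ := h.cov y0
  set k : Γ → A → ℝ := fun γ α => k0 γ α - k0 γ α0 with hkd
  have hk : ∀ (γ : Γ) α β y, y ∈ U α → y ∈ U β →
      g (γ • α) (γ • β) (γ • y) - g α β y = k γ β - k γ α := fun γ α β y hα hβ => by
    rw [hk0 γ α β y hα hβ, hkd]; ring
  have hk00 : ∀ γ, k γ α0 = 0 := fun γ => sub_self _
  have hmul : ∀ (γ γ' : Γ) α, k (γ * γ') α = k γ (γ' • α) + k γ' α - k γ (γ' • α0) :=
    fun γ γ' α => by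
      have e := Bnd.const_idx h (D := fun α => k (γ * γ') α - k γ (γ' • α) - k γ' α)
        (fun α β y hα hβ => by
          have e1 := hk (γ * γ') α β y hα hβ
          have e2 := hk γ _ _ _ (he.U_smul γ' α y hα) (he.U_smul γ' β y hβ)
          have e3 := hk γ' α β y hα hβ
          rw [mul_smul, mul_smul, mul_smul] at e1
          linarith) α α0
      simp only [hk00] at e
      linarith
  obtain ⟨f, hf⟩ := hp (fun γ γ' => k γ (γ' • α0)) fun a b c => by
    have e := hmul a b (c • α0)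
    rw [mul_smul]
    linarith
  choose Cf hCf using hf
  obtain ⟨J, hJ, hs⟩ := he.fin
  choose s j hj hsj using hs
  have hB : ∀ (i i' : A) (σ : Γ), ∃ B, ∀ y, y ∈ K i → y ∈ K (σ • i') →
      |g i (σ • i') y| + |k σ i'| + Cf σ ≤ B := fun i i' σ => by
    have hc : IsCompact (K i ∩ K (σ • i')) := (he.K_cpt i).inter_right (he.K_cpt _).isClosed
    have hcont : ContinuousOn (g i (σ • i')) (K i ∩ K (σ • i')) := fun y hy =>
      (h.cont _ _ _ y (hg.1 _ _ y (he.K_sub _ hy.1) (he.K_sub _ hy.2))).continuousWithinAt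
    obtain ⟨B, hB⟩ := hc.bddAbove_image hcont.abs
    exact ⟨B + |k σ i'| + Cf σ, fun y a b => by
      have : |g i (σ • i') y| ≤ B := hB ⟨y, ⟨a, b⟩, rfl⟩
      linarith⟩
  choose B hB using hB
  have hS : ∀ i i' : A, {σ : Γ | (K i ∩ K (σ • i')).Nonempty}.Finite := fun i i' =>
    (he.K_fin i).preimage (f := fun σ : Γ => σ • i') fun a _ b _ e => by
      have e' : a • i' = b • i' := e
      have : b⁻¹ * a = 1 := he.free _ i' (by rw [mul_smul, e', inv_smul_smul])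
      exact (inv_mul_eq_one.1 this).symm
  obtain ⟨C, hC⟩ := ((hJ.prod hJ).biUnion fun p _ => (hS p.1 p.2).image (B p.1 p.2)).bddAbove
  refine ⟨fun α β y => g α β y - ((k (s β) (j β) - f (s β)) - (k (s α) (j α) - f (s α))), C,
    ⟨fun α β y hα hβ => h.congr α β _ _ y
      (-((k (s β) (j β) - f (s β)) - (k (s α) (j α) - f (s α)))) (hg.1 α β y hα hβ)
      (Eventually.of_forall fun z => by ring), fun α β δ y hα hβ hδ => ?_⟩, fun α β y hα hβ => ?_⟩
  · have := hg.2 α β δ y hα hβ hδ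
    linarith
  · set σ := (s α)⁻¹ * s β with hσ
    have a1 : (s α)⁻¹ • α = j α := by rw [inv_smul_eq_iff]; exact hsj α
    have a2 : (s α)⁻¹ • β = σ • j β := by rw [hσ, mul_smul, ← hsj β]
    have m1 : (s α)⁻¹ • y ∈ K (j α) := a1 ▸ he.K_smul _ α y hα
    have m2 : (s α)⁻¹ • y ∈ K (σ • j β) := a2 ▸ he.K_smul _ β y hβ
    have e1 := hk (s α) _ _ _ (he.K_sub _ m1) (he.K_sub _ m2)
    rw [← hsj α, ← a2, smul_inv_smul, smul_inv_smul, a2] at e1
    have e2 := hmul (s α) σ (j β)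
    have e3 := hCf σ (s α)
    have e4 : s α * σ = s β := by rw [hσ, mul_inv_cancel_left]
    rw [e4] at e2 e3
    have e5 := hB _ _ σ _ m1 m2
    have e6 : B (j α) (j β) σ ≤ C :=
      hC (mem_biUnion (x := (j α, j β)) ⟨hj α, hj β⟩ ⟨σ, ⟨_, m1, m2⟩, rfl⟩)
    have e7 := abs_le.1 e3
    have e8 := le_abs_self (g (j α) (σ • j β) ((s α)⁻¹ • y))
    have e9 := neg_abs_le (g (j α) (σ • j β) ((s α)⁻¹ • y))
    have e10 := le_abs_self (k σ (j β))
    have e11 := neg_abs_le (k σ (j β))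
    rw [abs_le]
    constructor <;> linarith [e7.1, e7.2]

end Pool.Agent.MP_8ac6f3_ag.KH

end MrgPart6

-- ======== part 7: formerly Pool.Agent.MP_8ac6f3_ag.kh8.Spec2
section MrgPart7

/-! Statements of the analytic rows of PROJECT KH, second stage. -/

open Set Metric Complex Filter Function
open scoped Manifold ContDiff Topology

set_option maxSynthPendingDepth 3

noncomputable section

namespace Pool.Agent.MP_8ac6f3_ag.KH

variable {n : ℕ} {Y A : Type} [TopologicalSpace Y]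

/-- Near `ξ` the function `f` is conjugate to `u`. -/
def CR (u f : M n → ℝ) (ξ : M n) : Prop :=
  ContDiffAt ℝ 2 f ξ ∧ ∀ᶠ z in 𝓝 ξ, ∀ η, fderiv ℝ f z (I • η) = fderiv ℝ u z η

/-- The domain of a chart. -/
def Geo.U (G : Geo n Y A) (α : A) : Set Y := G.ψ α '' ball 0 3

/-- The compact part of the domain of a chart. -/
def Geo.Kc (G : Geo n Y A) (α : A) : Set Y := G.ψ α '' closedBall 0 (7 / 4)

/-- The difference of the potentials `α` and `β`, read in the chart `δ`. -/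
def Geo.df (G : Geo n Y A) (δ α β : A) : M n → ℝ :=
  fun z => G.φ α (tau G.toAtl δ α z) - G.φ β (tau G.toAtl δ β z)

/-- Near `y` the function `f` is conjugate to the difference of the potentials `α` and `β`. -/
def Geo.Cj (G : Geo n Y A) (α β : A) (f : Y → ℝ) (y : Y) : Prop :=
  ∀ δ, ∀ ξ ∈ ball (0 : M n) 3, G.ψ δ ξ = y → CR (G.df δ α β) (f ∘ G.ψ δ) ξ

/-- Row BALL: conjugate functions exist on balls. -/
def Ball (G : Geo n Y A) : Prop :=
  ∀ (δ α β : A) (x : M n) (R : ℝ), ball x R ⊆ ball 0 3 → G.ψ δ '' ball x R ⊆ G.U α →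
    G.ψ δ '' ball x R ⊆ G.U β → ∃ f, ∀ w ∈ G.ψ δ '' ball x R, G.Cj α β f w

/-- A group acts on the atlas. -/
structure Act (Γ : Type) [Group Γ] [MulAction Γ Y] [MulAction Γ A] (G : Geo n Y A) : Prop where
  ψ_smul : ∀ (g : Γ) α, ∀ ξ ∈ ball (0 : M n) 3, G.ψ (g • α) ξ = g • G.ψ α ξ
  φ_smul : ∀ (g : Γ) α, G.φ (g • α) = G.φ α
  free : ∀ (g : Γ) (y : Y), g • y = y → g = 1
  fin : ∃ J : Set A, J.Finite ∧ ∀ α, ∃ g : Γ, ∃ j ∈ J, α = g • j

/-- Row GE3: the uniform atlas with the action of the deck group. -/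
def Geo3 (n : ℕ) : Prop :=
  ∀ (X : Type) [TopologicalSpace X] [T2Space X] [CompactSpace X] [ChartedSpace (M n) X]
    [IsManifold 𝓘(ℂ, M n) ω X] (h : X → M n → ℝ), IsKaehler h →
    ∀ (Y : Type) [TopologicalSpace Y] [ChartedSpace (M n) Y] [IsManifold 𝓘(ℂ, M n) ω Y]
    (p : Y → X) (Γ : Type) [Group Γ] [MulAction Γ Y], IsQuotientCoveringMap p Γ →
    IsLocalDiffeomorph 𝓘(ℂ, M n) 𝓘(ℂ, M n) ω p →
    ∃ (A : Type) (G : Geo n Y A) (_ : MulAction Γ A), Link p h G ∧ Act Γ G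

variable {u u' f f' : M n → ℝ} {ξ ζ : M n}

theorem CR.congr (h : CR u f ξ) {s t : ℝ} (e : ∀ᶠ z in 𝓝 ξ, u' z = u z + s)
    (e' : ∀ᶠ z in 𝓝 ξ, f' z = f z + t) : CR u' f' ξ := by
  refine ⟨(h.1.add contDiffAt_const).congr_of_eventuallyEq e', ?_⟩
  filter_upwards [h.2, e.eventually_nhds, e'.eventually_nhds] with z h1 h2 h3 η
  rw [EventuallyEq.fderiv_eq (f := fun z => u z + s) h2,
    EventuallyEq.fderiv_eq (f := fun z => f z + t) h3, fderiv_add_const, fderiv_add_const, h1]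

theorem CR.eventually (h : CR u f ξ) : ∀ᶠ z in 𝓝 ξ, CR u f z :=
  (h.1.eventually (by simp)).and h.2.eventually_nhds

theorem CR.dif (h : CR u f ξ) : ∀ᶠ z in 𝓝 ξ, DifferentiableAt ℝ f z :=
  h.eventually.mono fun _ hz => hz.1.differentiableAt two_ne_zero

/-- Holomorphic changes of coordinates. -/
theorem CR.comp {τ : M n → M n} (h : CR u f (τ ξ)) (hu : ContDiffAt ℝ 1 u (τ ξ))
    (hτ : ContDiffAt ℂ 2 τ ξ) : CR (fun z => u (τ z)) (fun z => f (τ z)) ξ := by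
  refine ⟨h.1.comp ξ (hτ.restrict_scalars ℝ), ?_⟩
  filter_upwards [hτ.continuousAt.eventually (h.2.and (h.dif.and (hu.eventually (by simp)))),
    hτ.eventually (by simp)] with z h1 h2 η
  have h3 := (h2.differentiableAt two_ne_zero).hasFDerivAt.restrictScalars ℝ
  rw [(h1.2.1.hasFDerivAt.comp z h3).fderiv (f := fun z => f (τ z)),
    ((h1.2.2.differentiableAt one_ne_zero).hasFDerivAt.comp z h3).fderiv (f := fun z => u (τ z))]
  simpa using h1.1 _

namespace Geo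

variable (G : Geo n Y A) {α β δ ε : A} {y : Y} {w : Y → ℝ}

theorem U_open (α : A) : IsOpen (G.U α) := G.opn α _ isOpen_ball subset_rfl

theorem tau_self (hξ : ξ ∈ ball (0 : M n) 3) : ∀ᶠ z in 𝓝 ξ, tau G.toAtl δ δ z = z := by
  filter_upwards [isOpen_ball.mem_nhds hξ] with z hz using tau_eq _ hz rfl

/-- The potential `α` read in the chart `δ`. -/
theorem φτ_at (hξ : ξ ∈ ball (0 : M n) 3) (h : G.ψ δ ξ ∈ G.U α) :
    ContDiffAt ℝ 3 (fun z => G.φ α (tau G.toAtl δ α z)) ξ :=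
  (G.φ_at (tau_mem _ h)).comp ξ ((G.trs δ α ξ hξ h).restrict_scalars ℝ)

theorem df_at (hξ : ξ ∈ ball (0 : M n) 3) (h : G.ψ δ ξ ∈ G.U α) (h' : G.ψ δ ξ ∈ G.U β) :
    ContDiffAt ℝ 3 (G.df δ α β) ξ := (G.φτ_at hξ h).sub (G.φτ_at hξ h')

theorem df_chart (h : G.ψ δ ξ ∈ G.U ε) : G.df δ α β ξ = G.df ε α β (tau G.toAtl δ ε ξ) := by
  have e := psi_tau G.toAtl h
  simp only [df, tau] at e ⊢
  rw [e]

/-- One chart is enough. -/
theorem cj_of_chart (hζ : ζ ∈ ball (0 : M n) 3) (hα : G.ψ ε ζ ∈ G.U α) (hβ : G.ψ ε ζ ∈ G.U β)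
    (h : CR (G.df ε α β) (w ∘ G.ψ ε) ζ) : G.Cj α β w (G.ψ ε ζ) := fun δ ξ hξ e => by
  have hm : G.ψ δ ξ ∈ G.U ε := ⟨ζ, hζ, e.symm⟩
  have hu := (G.df_at hζ hα hβ).of_le (m := 1) (by norm_num)
  rw [← tau_eq G.toAtl hζ e.symm] at h hu
  refine (h.comp hu ((G.trs δ ε ξ hξ hm).of_le (by norm_num))).congr (s := 0) (t := 0) ?_ ?_
  · filter_upwards [ev_mem G.toAtl hξ hm] with z hz
    rw [add_zero, G.df_chart hz]
  · filter_upwards [comp_ev G.toAtl w hξ hm] with z hz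
    rw [add_zero, hz]

end Geo

end Pool.Agent.MP_8ac6f3_ag.KH

end

end MrgPart7

-- ======== part 8: formerly Pool.Agent.MP_8ac6f3_ag.kh8.Geo3
section MrgPart8

/-! Row GE3: the uniform atlas of a Galois covering with the action of the deck group. -/

open Set Metric Complex MeasureTheory Filter Function
open scoped Manifold ContDiff Topology

set_option maxSynthPendingDepth 3

namespace Pool.Agent.MP_8ac6f3_ag.KH

open C3P in
theorem Ge3.atlas {M X Y Γ : Type} [NormedAddCommGroup M] [NormedSpace ℝ M] [NormedSpace ℂ M]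
    [TopologicalSpace X] [ChartedSpace M X] [TopologicalSpace Y] {p : Y → X} [Group Γ]
    [MulAction Γ Y] [FiniteDimensional ℂ M] [T2Space X] [ChartedSpace M Y]
    (hq : IsQuotientCoveringMap p Γ) (hp' : MDifferentiable 𝓘(ℂ, M) 𝓘(ℂ, M) p) {ι : Type}
    [Fintype ι] {χ : ι → M → X} {σ : ι → X → M} (h : ∀ t, Good (χ t) (σ t))
    (hc : ∀ x, ∃ t, ∃ ξ ∈ ball (0 : M) 1, χ t ξ = x) :
    ∃ (A : Type) (a : Atl M Y A) (τ : A → ι) (_ : MulAction Γ A),
      (∀ α, ∀ ξ ∈ ball (0 : M) 3, p (a.ψ α ξ) = χ (τ α) ξ) ∧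
      (∀ g : Y → ℂ, a.Hol g → MDifferentiable 𝓘(ℂ, M) 𝓘(ℂ, ℂ) g) ∧
      (∀ (g : Γ) α, ∀ ξ ∈ ball (0 : M) 3, a.ψ (g • α) ξ = g • a.ψ α ξ) ∧
      (∀ (g : Γ) α, τ (g • α) = τ α) ∧ ∀ α β, τ α = τ β → ∃ g : Γ, α = g • β := by
  classical
  have hp := hq.isCoveringMap
  have : ProperSpace M := FiniteDimensional.proper ℂ M
  have z4 : (0 : M) ∈ ball (0 : M) 4 := mem_ball_self (by norm_num)
  have s34 : ball (0 : M) 3 ⊆ ball 0 4 := ball_subset_ball (by norm_num)
  have s13 : ball (0 : M) 1 ⊆ ball 0 3 := ball_subset_ball (by norm_num)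
  have s23 : closedBall (0 : M) 2 ⊆ ball 0 3 := closedBall_subset_ball (by norm_num)
  have st : StarConvex ℝ (0 : M) (ball 0 4) := (convex_ball 0 4).starConvex z4
  have pc : IsPreconnected (ball (0 : M) 4) := (convex_ball 0 4).isPreconnected
  choose ψ ψ1 ψ2 ψ3 using fun α : {q : ι × Y // p q.2 = χ q.1 0} =>
    C01.exists_lift hp isOpen_ball st (h α.1.1).cont z4 α.2
  have uq : ∀ α (G : M → Y), ContinuousOn G (ball 0 4) →
      (∀ b ∈ ball (0 : M) 4, p (G b) = χ α.1.1 b) → ∀ ξ ∈ ball (0 : M) 4, ψ α ξ = G ξ →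
      EqOn (ψ α) G (ball 0 4) := fun α G g1 g2 ξ hξ e =>
    hp.eqOn_of_comp_eqOn pc (ψ1 α) g1 (fun b hb => (ψ2 α b hb).trans (g2 b hb).symm) hξ e
  have ex : ∀ t, ∀ ξ ∈ ball (0 : M) 4, ∀ y, p y = χ t ξ → ∃ α, α.1.1 = t ∧ ψ α ξ = y := by
    intro t ξ hξ y hy
    obtain ⟨G, g1, g2, g3⟩ := C01.exists_lift hp isOpen_ball st (h t).cont hξ hy
    exact ⟨⟨(t, G 0), g2 0 z4⟩, rfl, (uq _ G g1 g2 0 z4 (ψ3 _) hξ).trans g3⟩
  have un : ∀ α β, α.1.1 = β.1.1 → ∀ ξ ∈ ball (0 : M) 4, ∀ η ∈ ball (0 : M) 4,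
      ψ α ξ = ψ β η → α = β := by
    intro α β e ξ hξ η hη e'
    have e1 : ξ = η := (h α.1.1).inj hξ hη (by rw [← ψ2 α ξ hξ, e', ψ2 β η hη, e])
    have e2 := uq α (ψ β) (ψ1 β) (fun b hb => by rw [ψ2 β b hb, e]) ξ hξ (by rw [e', e1]) z4
    rw [ψ3, ψ3] at e2
    exact Subtype.ext (Prod.ext e e2)
  have inj : ∀ α, InjOn (ψ α) (ball 0 3) := fun α a ha b hb e =>
    (h α.1.1).inj (s34 ha) (s34 hb) (by rw [← ψ2 α a (s34 ha), e, ψ2 α b (s34 hb)])
  have opn : ∀ α U, IsOpen U → U ⊆ ball 0 3 → IsOpen (ψ α '' U) := fun α U hU hs => by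
    rw [isOpen_iff_mem_nhds]
    rintro _ ⟨a, ha, rfl⟩
    exact lift_opn hp (h α.1.1) (ψ1 α) (ψ2 α) (s34 (hs ha)) (hU.mem_nhds ha)
  have cov : ∀ y, ∃ α, ∃ ξ ∈ ball (0 : M) 1, ψ α ξ = y := fun y => by
    obtain ⟨t, ξ, hξ, e⟩ := hc (p y)
    obtain ⟨α, -, e'⟩ := ex t ξ (s34 (s13 hξ)) y e.symm
    exact ⟨α, ξ, hξ, e'⟩
  have back : ∀ α, ∀ η ∈ ball (0 : M) 3, σ α.1.1 (p (ψ α η)) = η := fun α η hη => by
    rw [ψ2 α η (s34 hη), (h _).inv η (s34 hη)]
  choose C hC using fun q : ι × ι => bound (h q.1) (h q.2)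
  obtain ⟨C0, hC0⟩ := (finite_range C).bddAbove
  let act : MulAction Γ {q : ι × Y // p q.2 = χ q.1 0} :=
    { smul := fun g α => ⟨(α.1.1, g • α.1.2), (hq.map_smul g).trans α.2⟩
      one_smul := fun α => Subtype.ext (Prod.ext rfl (one_smul Γ α.1.2))
      mul_smul := fun g g' α => Subtype.ext (Prod.ext rfl (mul_smul g g' α.1.2)) }
  refine ⟨_, ⟨ψ, C0, Fintype.card ι, fun α => (ψ1 α).mono s34, inj, opn, cov,
    fun α β ξ hξ hm => ?_, fun y => ?_⟩, fun α => α.1.1, act, fun α ξ hξ => ψ2 α ξ (s34 hξ),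
    fun g hg y => ?_, fun g α ξ hξ => ?_, fun _ _ => rfl, fun α β e => ?_⟩
  · have e : (fun ξ' => Function.invFunOn (ψ β) (ball 0 3) (ψ α ξ')) =ᶠ[𝓝 ξ]
        fun ξ' => σ β.1.1 (χ α.1.1 ξ') := by
      filter_upwards [((ψ1 α).continuousAt (isOpen_ball.mem_nhds (s34 hξ))).preimage_mem_nhds
        ((opn β _ isOpen_ball subset_rfl).mem_nhds hm), isOpen_ball.mem_nhds (s34 hξ)] with ξ' h1 h2
      obtain ⟨η, hη, e⟩ := h1
      rw [← ψ2 α ξ' h2, ← e, back β η hη, (inj β).leftInvOn_invFunOn hη]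
    obtain ⟨η, hη, e'⟩ := hm
    obtain ⟨k1, k2⟩ := hC (α.1.1, β.1.1) ξ hξ
      ⟨η, hη, by rw [← ψ2 β η (s34 hη), e', ψ2 α ξ (s34 hξ)]⟩
    exact ⟨k1.congr_of_eventuallyEq e, by rw [e.fderiv_eq]; exact k2.trans (hC0 ⟨_, rfl⟩)⟩
  · have loc : ∀ t, ∃ O ∈ 𝓝 y, ∃ T : Finset {q : ι × Y // p q.2 = χ q.1 0}, T.card ≤ 1 ∧
        ∀ α, α.1.1 = t → (ψ α '' closedBall 0 2 ∩ O).Nonempty → α ∈ T := by
      intro t
      by_cases c : p y ∈ χ t '' ball 0 3
      · obtain ⟨ξ, hξ, e⟩ := c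
        obtain ⟨β, e1, e2⟩ := ex t ξ (s34 hξ) y e.symm
        refine ⟨_, (opn β _ isOpen_ball subset_rfl).mem_nhds ⟨ξ, hξ, e2⟩, {β}, by simp, ?_⟩
        rintro α e3 ⟨_, ⟨a, ha, rfl⟩, b, hb, e4⟩
        exact Finset.mem_singleton.2
          (un α β (e3.trans e1.symm) a (s34 (s23 ha)) b (s34 hb) e4.symm)
      · have k1 : IsClosed (χ t '' closedBall 0 2) :=
          ((isCompact_closedBall 0 2).image_of_continuousOn
            ((h t).cont.mono (s23.trans s34))).isClosed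
        refine ⟨_, hp.continuous.continuousAt.preimage_mem_nhds
          (k1.isOpen_compl.mem_nhds fun c' => c (image_mono s23 c')), ∅, by simp, ?_⟩
        rintro α e3 ⟨_, ⟨a, ha, rfl⟩, e4⟩
        exact absurd ⟨a, ha, by rw [ψ2 α a (s34 (s23 ha)), e3]⟩ e4
    choose O hO T hT hT' using loc
    refine ⟨⋂ t, O t, iInter_mem.2 hO, Finset.univ.biUnion T, ?_, fun α hα => ?_⟩
    · simpa using Finset.card_biUnion_le_card_mul Finset.univ T 1 fun t _ => hT t
    · exact Finset.mem_biUnion.2 ⟨_, Finset.mem_univ _, hT' _ α rfl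
        (hα.mono (inter_subset_inter_right _ (iInter_subset _ _)))⟩
  · obtain ⟨α, ξ, hξ, rfl⟩ := cov y
    have h3 := s13 hξ
    have e : g =ᶠ[𝓝 (ψ α ξ)] fun y => (g ∘ ψ α) (σ α.1.1 (p y)) := by
      filter_upwards [(opn α _ isOpen_ball subset_rfl).mem_nhds ⟨ξ, h3, rfl⟩] with y hy
      obtain ⟨η, hη, rfl⟩ := hy
      rw [back α η hη]
      rfl
    have k1 : MDifferentiableAt 𝓘(ℂ, M) 𝓘(ℂ, ℂ) (g ∘ ψ α) (σ α.1.1 (p (ψ α ξ))) := by
      rw [back α ξ h3]
      exact ((hg α).differentiableAt (isOpen_ball.mem_nhds h3)).mdifferentiableAt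
    have k2 : MDifferentiableAt 𝓘(ℂ, M) 𝓘(ℂ, M) (σ α.1.1) (p (ψ α ξ)) := by
      rw [ψ2 α ξ (s34 h3)]
      exact ((h _).sm' ξ (s34 h3)).mdifferentiableAt one_ne_zero
    exact ((k1.comp _ k2).comp _ (hp' _)).congr_of_eventuallyEq e
  · exact uq (g • α) (fun ξ => g • ψ α ξ) ((hq.continuous_const_smul g).comp_continuousOn (ψ1 α))
      (fun b hb => (hq.map_smul g).trans (ψ2 α b hb)) 0 z4 (by rw [ψ3, ψ3]; rfl) (s34 hξ)
  · obtain ⟨g, hg⟩ := hq.apply_eq_iff_mem_orbit.1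
      (α.2.trans ((congrArg (χ · 0) e).trans β.2.symm))
    exact ⟨g, Subtype.ext (Prod.ext e hg.symm)⟩

variable {n : ℕ}

open Ge1 in
theorem geo3 : Geo3 n := by
  intro X _ _ _ _ _ h hk Y _ _ _ p Γ _ _ hp hp'
  choose χ σ f N h0 using nice hk
  have z4 : (0 : M n) ∈ ball (0 : M n) 4 := mem_ball_self (by norm_num)
  have s34 : ball (0 : M n) 3 ⊆ ball 0 4 := ball_subset_ball (by norm_num)
  have hd := hp'.mdifferentiable (by simp)
  obtain ⟨s, -, hs⟩ := isCompact_univ.elim_nhds_subcover (fun x => χ x '' ball 0 1)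
    fun x _ => by
      have := (N x).good.opn z4 (ball_mem_nhds 0 one_pos)
      rwa [h0 x] at this
  obtain ⟨A, a, τ, act, a1, a2, a3, a4, a5⟩ := Ge3.atlas hp hd (ι := s) (fun t => (N t.1).good)
      fun x => by
    obtain ⟨t, ht, ξ, hξ, e⟩ := mem_iUnion₂.1 (hs (mem_univ x))
    exact ⟨⟨t, ht⟩, ξ, hξ, e⟩
  choose B _ hB using fun t : s => exists_Db_of_compact isOpen_ball (N t.1).pot
    (isCompact_closedBall (0 : M n) 3) (closedBall_subset_ball (by norm_num))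
    (ball_subset_closedBall (x := (0 : M n)) (ε := 3))
  choose c hc hc' using fun t : s => (N t.1).pos hk
  obtain ⟨B0, hB0⟩ := (finite_range B).bddAbove
  obtain ⟨c0, c1, c2⟩ : ∃ c0 : ℝ, 0 < c0 ∧ ∀ t, c0 ≤ c t := by
    rcases isEmpty_or_nonempty s with he | hn
    · exact ⟨1, one_pos, fun t => he.elim t⟩
    · obtain ⟨t, ht⟩ := Finite.exists_min c
      exact ⟨c t, hc t, ht⟩
  have near : ∀ α β, ∀ ξ ∈ ball (0 : M n) 3, a.ψ α ξ ∈ a.ψ β '' ball 0 3 → ∀ᶠ z in 𝓝 ξ,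
      tau a α β z ∈ ball (0 : M n) 3 ∧ χ (τ α) z = χ (τ β) (tau a α β z) := by
    intro α β ξ hξ hm
    filter_upwards [((a.cont α).continuousAt (isOpen_ball.mem_nhds hξ)).preimage_mem_nhds
      ((a.opn β _ isOpen_ball subset_rfl).mem_nhds hm), isOpen_ball.mem_nhds hξ] with z h1 h2
    obtain ⟨η, hη, e⟩ := h1
    have e1 : tau a α β z = η := by rw [tau, ← e, (a.inj β).leftInvOn_invFunOn hη]
    rw [e1, ← a1 α z h2, ← e, a1 β η hη]
    exact ⟨hη, rfl⟩
  have trs : ∀ α β, ∀ ξ ∈ ball (0 : M n) 3, a.ψ α ξ ∈ a.ψ β '' ball 0 3 →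
      ContDiffAt ℂ 3 (tau a α β) ξ := by
    intro α β ξ hξ hm
    have h1 := near α β ξ hξ hm
    have h2 := (N (τ β)).sm' _ (s34 h1.self_of_nhds.1)
    rw [← h1.self_of_nhds.2] at h2
    refine (h2.comp ξ ((N (τ α)).sm ξ (s34 hξ))).contDiffAt.congr_of_eventuallyEq ?_
    filter_upwards [h1] with z hz
    rw [comp_apply, hz.2, (N (τ β)).good.inv _ (s34 hz.1)]
  have sm : ∀ α, ∀ ξ ∈ ball (0 : M n) 3, ContMDiffAt 𝓘(ℂ, M n) 𝓘(ℂ, M n) 3 (a.ψ α) ξ := by
    intro α ξ hξ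
    obtain ⟨e, he, he'⟩ := hp' (a.ψ α ξ)
    have h1 : ContMDiffAt 𝓘(ℂ, M n) 𝓘(ℂ, M n) 3 e.invFun (χ (τ α) ξ) := by
      rw [← a1 α ξ hξ, he' he]
      exact (e.contMDiffOn_invFun.contMDiffAt (e.open_target.mem_nhds (e.map_source he))).of_le
        le_top
    refine (h1.comp ξ ((N (τ α)).sm ξ (s34 hξ))).congr_of_eventuallyEq ?_
    filter_upwards [((a.cont α).continuousAt (isOpen_ball.mem_nhds hξ)).preimage_mem_nhds
      (e.open_source.mem_nhds he), isOpen_ball.mem_nhds hξ] with z h2 h3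
    rw [comp_apply, ← a1 α z h3, he' h2]
    exact (e.left_inv h2).symm
  refine ⟨A, ⟨a, trs, fun α => f (τ α), B0, c0, c1, ⟨fun α => (N (τ α)).pot.mono s34,
    fun α β ξ hξ hm η => ?_⟩, fun α => ?_, fun α ξ hξ η => ?_⟩, act,
    ⟨sm, fun α ξ hξ η => ?_, a2⟩, a3, fun g α => congrArg (fun t : s => f t) (a4 g α),
    fun g y e => ?_, range fun t : range τ => t.2.choose, finite_range _, fun α => ?_⟩
  · have h1 := near α β ξ hξ hm
    have h2 := h1.self_of_nhds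
    rw [(N (τ α)).met ξ (s34 hξ), (N (τ β)).met _ (s34 h2.1), ← h2.2, ← dmap_eq,
      dmap_comp ((trs α β ξ hξ hm).differentiableAt (by norm_num)).mdifferentiableAt
        (((N (τ β)).sm _ (s34 h2.1)).mdifferentiableAt (by norm_num)) (h1.mono fun z hz => hz.2)]
  · obtain ⟨⟨k1, k2⟩, k3⟩ := hB (τ α)
    have k4 : B (τ α) ≤ B0 := hB0 ⟨_, rfl⟩
    exact ⟨⟨k1, fun j j1 j3 x hx => (k2 j j1 j3 x hx).trans k4⟩, fun x hx => (k3 x hx).trans k4⟩
  · exact (mul_le_mul_of_nonneg_right (c2 _) (by positivity)).trans (hc' (τ α) ξ hξ η)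
  · change lev (f (τ α)) ξ η = h (p (a.ψ α ξ)) (dmap p (a.ψ α ξ) (dmap (a.ψ α) ξ η))
    rw [(N (τ α)).met ξ (s34 hξ), a1 α ξ hξ,
      dmap_comp ((sm α ξ hξ).mdifferentiableAt (by norm_num)) (hd _)
        (by filter_upwards [isOpen_ball.mem_nhds hξ] with z hz using (a1 α z hz).symm)]
  · obtain ⟨U, hU, h1⟩ := hp.disjoint y
    exact h1 g ⟨y, ⟨y, mem_of_mem_nhds hU, e⟩, mem_of_mem_nhds hU⟩
  · obtain ⟨g, hg⟩ := a5 α _ (mem_range_self (f := τ) α).choose_spec.symm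
    exact ⟨g, _, ⟨⟨τ α, α, rfl⟩, rfl⟩, hg⟩

end Pool.Agent.MP_8ac6f3_ag.KH

end MrgPart8

-- ======== part 9: formerly Pool.Agent.MP_8ac6f3_ag.kh8.Ball
section MrgPart9

/-! Row BALL: conjugate functions on balls. -/

open Set Metric Complex Filter Function
open scoped Manifold ContDiff Topology

set_option maxSynthPendingDepth 3

noncomputable section

namespace Pool.Agent.MP_8ac6f3_ag.KH

variable {n : ℕ} {Y A : Type} [TopologicalSpace Y] {G : Geo n Y A}

namespace BallP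

theorem pol (B : Bil n) (hs : ∀ v w, B v w = B w v) (h : ∀ η, hq B η = 0) (v w : M n) :
    B v (I • w) = B w (I • v) := by
  have h1 := h (v + I • w)
  have h2 := h v
  have h3 := h w
  simp only [hq, smul_add, L1.II, map_add, map_neg, add_apply, neg_apply] at h1 h2 h3
  linarith [hs v (I • w), hs w (I • v)]

/-- A pluriharmonic function on a ball has a conjugate function. -/
theorem conj {u : M n → ℝ} {x : M n} {R : ℝ} (hu : ∀ z ∈ ball x R, ContDiffAt ℝ 2 u z)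
    (hl : ∀ z ∈ ball x R, ∀ η, lev u z η = 0) : ∃ F, ∀ z ∈ ball x R, CR u F z := by
  let J : M n →L[ℝ] M n := ((-I) • ContinuousLinearMap.id ℂ (M n)).restrictScalars ℝ
  have hJ : ∀ η, J η = -(I • η) := fun η => by simp [J]
  have h1 : ∀ z ∈ ball x R, ContDiffAt ℝ 1 (fun z => (fderiv ℝ u z).comp J) z := fun z hz =>
    ((hu z hz).fderiv_right (m := 1) (by norm_num)).clm_comp contDiffAt_const
  obtain ⟨F, hF⟩ := (convex_ball x R).exists_forall_hasFDerivAt_of_fderiv_symmetric isOpen_ball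
    (fun z hz => ((h1 z hz).differentiableAt one_ne_zero).differentiableWithinAt)
    fun z hz v w => by
      rw [((L1.dd (hu z hz)).hasFDerivAt.clm_comp (hasFDerivAt_const J z)).fderiv]
      have := pol (D2 u z) ((hu z hz).isSymmSndFDerivAt (by simp)) (hl z hz) v w
      simpa [hJ, D2] using this
  refine ⟨F, fun z hz => ⟨?_, ?_⟩⟩
  · exact (contDiffAt_succ_iff_hasFDerivAt (n := 1)).2
      ⟨_, ⟨_, isOpen_ball.mem_nhds hz, hF⟩, h1 z hz⟩
  · filter_upwards [isOpen_ball.mem_nhds hz] with y hy η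
    rw [(hF y hy).fderiv, ContinuousLinearMap.comp_apply, hJ, L1.II, neg_neg]

theorem lev_tau {δ α : A} {ξ : M n} (hξ : ξ ∈ ball (0 : M n) 3) (h : G.ψ δ ξ ∈ G.U α) (η : M n) :
    lev (fun z => G.φ α (tau G.toAtl δ α z)) ξ η = lev (G.φ δ) ξ η := by
  rw [lev_comp_hol ((G.trs δ α ξ hξ h).of_le (by norm_num)) (G.φ_at2 (tau_mem _ h)),
    G.φ_pot.2 δ α ξ hξ h]

end BallP

theorem ballS (G : Geo n Y A) : Ball G := fun δ α β x R h hα hβ => by
  obtain ⟨F, hF⟩ := BallP.conj (u := G.df δ α β) (x := x) (R := R)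
    (fun z hz => (G.df_at (h hz) (hα ⟨z, hz, rfl⟩) (hβ ⟨z, hz, rfl⟩)).of_le (by norm_num))
    fun z hz η => by
      have h1 := hα ⟨z, hz, rfl⟩
      have h2 := hβ ⟨z, hz, rfl⟩
      have := lev_sub ((G.φτ_at (h hz) h1).of_le (by norm_num))
        ((G.φτ_at (h hz) h2).of_le (by norm_num)) η
      rwa [BallP.lev_tau (h hz) h1, BallP.lev_tau (h hz) h2, sub_self] at this
  refine ⟨F ∘ invFunOn (G.ψ δ) (ball 0 3), ?_⟩
  rintro _ ⟨z, hz, rfl⟩
  refine G.cj_of_chart (h hz) (hα ⟨z, hz, rfl⟩) (hβ ⟨z, hz, rfl⟩)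
    ((hF z hz).congr (s := 0) (t := 0) (by simp) ?_)
  filter_upwards [isOpen_ball.mem_nhds (h hz)] with y hy
  simp only [comp, inv_psi G.toAtl hy, add_zero]

end Pool.Agent.MP_8ac6f3_ag.KH

end

end MrgPart9

-- ======== part 10: formerly Pool.Agent.MP_8ac6f3_ag.kh8.Loc
section MrgPart10

/-! Row LOC: conjugate functions are transition functions. -/

open Set Metric Complex Filter Function
open scoped ContDiff Topology

set_option maxSynthPendingDepth 3

namespace Pool.Agent.MP_8ac6f3_ag.KH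

variable {n : ℕ} {Y A : Type} [TopologicalSpace Y] {G : Geo n Y A}

namespace LocP

theorem sc (G : Geo n Y A) (α : A) : IsSimplyConnected (G.U α) := by
  have hc : ContractibleSpace (ball (0 : M n) 3) :=
    (convex_ball 0 3).contractibleSpace ⟨0, mem_ball_self (by norm_num)⟩
  have he : Topology.IsOpenEmbedding fun z : ball (0 : M n) 3 => G.ψ α z :=
    .of_continuous_injective_isOpenMap (G.cont α).domRestrict
      (fun z z' e => Subtype.ext (G.inj α z.2 z'.2 e)) fun U hU => by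
        have := G.opn α _ (isOpen_ball.isOpenMap_subtype_val U hU) (Subtype.coe_image_subset _ _)
        rwa [image_image] at this
  have e : G.U α = (fun z : ball (0 : M n) 3 => G.ψ α z) '' univ := by
    rw [Geo.U, image_univ, image_eq_range]
  rw [e, he.isEmbedding.isSimplyConnected_image]
  have : ContractibleSpace (univ : Set (ball (0 : M n) 3)) :=
    (Homeomorph.Set.univ _).contractibleSpace
  exact SimplyConnectedSpace.ofContractible _

variable {u u' f f' : M n → ℝ} {ξ : M n}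

theorem cr_add (h : CR u f ξ) (h' : CR u' f' ξ) (hu : ContDiffAt ℝ 3 u ξ)
    (hu' : ContDiffAt ℝ 3 u' ξ) : CR (fun z => u z + u' z) (fun z => f z + f' z) ξ := by
  refine ⟨h.1.add h'.1, ?_⟩
  filter_upwards [h.2, h'.2, h.dif, h'.dif, hu.eventually (by simp), hu'.eventually (by simp)]
    with z h1 h2 h3 h4 h5 h6 η
  rw [fderiv_fun_add h3 h4, fderiv_fun_add (h5.differentiableAt (by norm_num))
    (h6.differentiableAt (by norm_num)), add_apply,
    add_apply, h1, h2]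

theorem cr_neg (h : CR u f ξ) : CR (fun z => -u z) (fun z => -f z) ξ := by
  refine ⟨h.1.neg, ?_⟩
  filter_upwards [h.2] with z h1 η
  rw [fderiv_fun_neg, fderiv_fun_neg, neg_apply,
    neg_apply, h1]

theorem cr_const (h : CR (fun _ => 0) f ξ) : ∀ᶠ z in 𝓝 ξ, f z = f ξ := by
  obtain ⟨r, hr, hb⟩ := Metric.eventually_nhds_iff_ball.1 (h.dif.and h.2)
  filter_upwards [ball_mem_nhds ξ hr] with z hz
  refine isOpen_ball.is_const_of_fderiv_eq_zero (𝕜 := ℝ) (convex_ball ξ r).isPreconnected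
    (fun x hx => (hb x hx).1.differentiableWithinAt) (fun x hx => ?_) hz (mem_ball_self hr)
  ext η
  have := (hb x hx).2 (-I • η)
  rw [smul_smul, mul_neg, I_mul_I, neg_neg, one_smul] at this
  simpa using this

end LocP

open LocP in
theorem loc (h : Ball G) : Loc G.U G.Cj where
  opn := G.U_open
  sc := sc G
  cov y := by
    obtain ⟨α, ξ, hξ, e⟩ := G.cov y
    exact ⟨α, ξ, b13 hξ, e⟩
  ex := by
    rintro α β _ ⟨ξ, hξ, rfl⟩ hβ
    obtain ⟨r, hr, hb⟩ := Metric.eventually_nhds_iff_ball.1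
      ((ev_mem G.toAtl hξ hβ).and (isOpen_ball.mem_nhds hξ))
    obtain ⟨f, hf⟩ := h α α β ξ r (fun z hz => (hb z hz).2)
      (image_mono fun z hz => (hb z hz).2) (by rintro _ ⟨z, hz, rfl⟩; exact (hb z hz).1)
    exact ⟨f, mem_of_superset (image_nhds G.toAtl hξ (ball_mem_nhds ξ hr)) hf⟩
  add α β γ f g y hα hβ hγ hf hg δ ξ hξ e := by
    subst e
    exact (cr_add (hf δ ξ hξ rfl) (hg δ ξ hξ rfl) (G.df_at hξ hα hβ) (G.df_at hξ hβ hγ)).congr
      (s := 0) (t := 0) (.of_forall fun z => by simp [Geo.df]) (.of_forall fun z => by simp)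
  neg α β f y hf δ ξ hξ e :=
    (cr_neg (hf δ ξ hξ e)).congr (s := 0) (t := 0) (.of_forall fun z => by simp [Geo.df])
      (.of_forall fun z => by simp)
  const α f y hf := by
    obtain ⟨δ, ξ, hξ, rfl⟩ := G.cov y
    exact push G.toAtl (b13 hξ) (cr_const ((hf δ ξ (b13 hξ) rfl).congr (s := 0) (t := 0)
      (.of_forall fun z => by simp [Geo.df]) (.of_forall fun z => by simp)))
  congr α β f g y t hf hg δ ξ hξ e := by
    subst e
    exact (hf δ ξ hξ rfl).congr (s := 0) (t := t) (.of_forall fun z => by simp)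
      (pull G.toAtl hξ hg)
  cont α β f y hf := by
    obtain ⟨δ, ξ, hξ, rfl⟩ := G.cov y
    intro U hU
    exact push G.toAtl (b13 hξ) ((hf δ ξ (b13 hξ) rfl).1.continuousAt hU)

end Pool.Agent.MP_8ac6f3_ag.KH

end MrgPart10

-- ======== part 11: formerly Pool.Agent.MP_8ac6f3_ag.kh8.Scl
section MrgPart11

/-! Row SCL: a cover with three scales. -/

open Set Metric Complex Filter Function
open scoped Manifold ContDiff Topology

namespace Pool.Agent.MP_8ac6f3_ag.KH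

variable {n : ℕ} {Y A : Type} [TopologicalSpace Y] {G : Geo n Y A}

theorem scl (hl : Lip G.toAtl) (h : Ball G) : Scl G.U G.Cj := by
  obtain ⟨Λ, hΛ, hl⟩ := hl
  choose a ξ hξ e using G.cov
  obtain ⟨r, hr, hr'⟩ : ∃ r : ℝ, 0 < r ∧ Λ * (Λ * r) = 1 / 8 :=
    ⟨1 / (8 * Λ ^ 2), by positivity, by field_simp⟩
  have r1 : r ≤ Λ * r := le_mul_of_one_le_left hr.le hΛ
  have r2 : Λ * r ≤ 1 / 8 := hr' ▸ le_mul_of_one_le_left (hr.le.trans r1) hΛ
  have hn : ∀ x, ‖ξ x‖ < 1 := fun x => mem_ball_zero_iff.1 (hξ x)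
  have tri : ∀ {x} {z : M n} {s : ℝ}, z ∈ ball (ξ x) s → ‖z‖ < 1 + s := fun {x z s} hz => by
    rw [mem_ball, dist_eq_norm] at hz
    linarith [norm_sub_norm_le z (ξ x), hn x]
  have sub : ∀ x, ball (ξ x) (3 * (Λ * r)) ⊆ ball (0 : M n) 3 := fun x z hz =>
    mem_ball_zero_iff.2 (by linarith [tri hz])
  have sub' : ∀ x, ball (ξ x) r ⊆ ball (ξ x) (3 * (Λ * r)) := fun x =>
    ball_subset_ball (by linarith)
  refine ⟨fun x => G.ψ (a x) '' ball (ξ x) r, fun x => G.ψ (a x) '' ball (ξ x) (3 * (Λ * r)), a,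
    fun x => ⟨G.opn _ _ isOpen_ball ((sub' x).trans (sub x)),
      (convex_ball _ _).isPreconnected.image _ ((G.cont _).mono ((sub' x).trans (sub x))),
      ⟨ξ x, mem_ball_self hr, e x⟩, image_mono (sub' x), image_mono (sub x)⟩, ?_,
    fun x β hβ => h (a x) (a x) β (ξ x) _ (sub x) (image_mono (sub x)) hβ⟩
  rintro x y ⟨_, ⟨p, hp, rfl⟩, q, hq, hpq⟩
  have key : ∀ (z : M n) (s : ℝ), z ∈ ball (ξ x) s → s ≤ 3 * (Λ * r) →
      ∃ ζ, ‖ζ - q‖ < Λ * (s + r) ∧ G.ψ (a y) ζ = G.ψ (a x) z := fun z s hz hs => by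
    have h1 : ‖z - p‖ < s + r := by
      rw [← dist_eq_norm]
      linarith [dist_triangle_right z p (ξ x), mem_ball.1 hz, mem_ball.1 hp]
    have h2 : Λ * ‖z - p‖ < Λ * (s + r) := mul_lt_mul_of_pos_left h1 (by linarith)
    obtain ⟨ζ, h3, h4⟩ := hl (a x) (a y) p (sub x (sub' x hp)) z
      (sub x (ball_subset_ball hs hz)) q hpq (by nlinarith [tri hq])
    exact ⟨ζ, h3.trans_lt h2, h4⟩
  constructor
  · rintro _ ⟨z, hz, rfl⟩
    obtain ⟨ζ, h1, h2⟩ := key z r hz (by linarith)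
    refine ⟨ζ, ?_, h2⟩
    rw [← dist_eq_norm] at h1
    rw [mem_ball]
    linarith [dist_triangle ζ q (ξ y), mem_ball.1 hq]
  · rintro _ ⟨z, hz, rfl⟩
    obtain ⟨ζ, h1, h2⟩ := key z _ hz le_rfl
    refine ⟨ζ, mem_ball_zero_iff.2 ?_, h2⟩
    nlinarith [norm_sub_norm_le ζ q, tri hq]

end Pool.Agent.MP_8ac6f3_ag.KH

end MrgPart11

-- ======== part 12: formerly Pool.Agent.MP_8ac6f3_ag.kh8.Eqv
section MrgPart12

/-! Row EQV: the data are equivariant. -/

open Set Metric Complex Filter Function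
open scoped Manifold ContDiff Topology

namespace Pool.Agent.MP_8ac6f3_ag.KH

variable {n : ℕ} {Y A : Type} [TopologicalSpace Y] {G : Geo n Y A}

theorem eqv {Γ : Type} [Group Γ] [MulAction Γ Y] [MulAction Γ A] (h : Act Γ G) (k : Kit0 G) :
    Eqv Γ G.U G.Kc G.Cj := by
  have h74 : closedBall (0 : M n) (7 / 4) ⊆ ball 0 3 := cb_sub (by norm_num)
  have ht : ∀ (g : Γ) δ α, ∀ z ∈ ball (0 : M n) 3, G.ψ δ z ∈ G.U α →
      tau G.toAtl (g • δ) (g • α) z = tau G.toAtl δ α z := fun g δ α z hz hm =>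
    tau_eq G.toAtl (tau_mem _ hm) (by
      rw [h.ψ_smul g α _ (tau_mem _ hm), h.ψ_smul g δ z hz, psi_tau G.toAtl hm])
  refine ⟨fun g => continuous_of_chart G.toAtl fun α => (G.cont (g • α)).congr fun ξ hξ =>
      (h.ψ_smul g α ξ hξ).symm, fun g α e => h.free g (G.ψ α 0) ?_, h.fin, ?_, ?_, ?_,
    fun α => isCompact_image G.toAtl α (isCompact_closedBall _ _) h74, fun α => image_mono h74,
    fun α => (k.nb α).finite_toSet.subset ?_⟩
  · rw [← h.ψ_smul g α 0 (mem_ball_self (by norm_num)), e]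
  · rintro g α _ ⟨ξ, hξ, rfl⟩
    exact ⟨ξ, hξ, h.ψ_smul g α ξ hξ⟩
  · rintro g α _ ⟨ξ, hξ, rfl⟩
    exact ⟨ξ, hξ, h.ψ_smul g α ξ (h74 hξ)⟩
  · rintro g α β f y hα hβ hf δ ξ hξ rfl
    refine (hf (g • δ) ξ hξ (h.ψ_smul g δ ξ hξ)).congr (s := 0) (t := 0) ?_ ?_
    · filter_upwards [isOpen_ball.mem_nhds hξ, ev_mem G.toAtl hξ hα, ev_mem G.toAtl hξ hβ]
        with z hz h1 h2
      simp only [Geo.df, ht g δ α z hz h1, ht g δ β z hz h2, h.φ_smul, add_zero]
    · filter_upwards [isOpen_ball.mem_nhds hξ] with z hz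
      simp only [comp_apply, h.ψ_smul g δ z hz, add_zero]
  · rintro β ⟨_, ⟨ξ, hξ, rfl⟩, hβ⟩
    exact k.nb_mem β α ξ (h74 hξ) hβ

end Pool.Agent.MP_8ac6f3_ag.KH

end MrgPart12

-- ======== part 13: formerly Pool.Agent.MP_8ac6f3_ag.kh8.Prm
section MrgPart13

/-! A bounded cocycle of conjugate functions gives a bounded primitive. -/

open Set Metric Complex Filter Function
open scoped ContDiff Topology

set_option maxSynthPendingDepth 3

noncomputable section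

namespace Pool.Agent.MP_8ac6f3_ag.KH

variable {n : ℕ} {Y A : Type} [TopologicalSpace Y] {G : Geo n Y A}

namespace Prm

open KitP

/-- the complex structure -/
def J : M n →L[ℝ] M n := ContinuousLinearMap.lsmul ℝ ℂ I

theorem J_apply (η : M n) : J η = I • η := rfl

theorem ev {c : M n → Cv n} {x : M n} (hc : DifferentiableAt ℝ c x) (η v : M n) :
    fderiv ℝ (fun y => c y v) x η = fderiv ℝ c x η v := by
  rw [fderiv_clm_apply hc (differentiableAt_const v)]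
  simp

theorem Kc_sub (α : A) : G.Kc α ⊆ G.U α := image_mono (cb_sub (by norm_num))

theorem dφτ {α δ : A} {ξ : M n} (hξ : ξ ∈ ball (0 : M n) 3) (h : G.ψ δ ξ ∈ G.U α) (η : M n) :
    fderiv ℝ (fun z => G.φ α (tau G.toAtl δ α z)) ξ η =
      fderiv ℝ (G.φ α) (tau G.toAtl δ α ξ) (fderiv ℂ (tau G.toAtl δ α) ξ η) :=
  congrArg (fun l : Cv n => l η)
    (((G.φ_at (tau_mem _ h)).differentiableAt (by norm_num)).hasFDerivAt.comp ξ
      (((G.trs δ α ξ hξ h).differentiableAt (by norm_num)).hasFDerivAt.restrictScalars ℝ)).fderiv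

theorem dφ_le {α : A} {ξ : M n} (hξ : ξ ∈ ball (0 : M n) 3) : ‖fderiv ℝ (G.φ α) ξ‖ ≤ G.B := by
  have := (G.φ_bd α).1.2 1 le_rfl (by norm_num) ξ hξ
  rwa [norm_iteratedFDeriv_one] at this

theorem dφτ_le {α δ : A} {ξ : M n} (hξ : ξ ∈ ball (0 : M n) 3) (h : G.ψ δ ξ ∈ G.U α) (η : M n) :
    |fderiv ℝ (fun z => G.φ α (tau G.toAtl δ α z)) ξ η| ≤ G.B * (|G.C| * ‖η‖) := by
  rw [dφτ hξ h]
  refine (ContinuousLinearMap.le_of_opNorm_le _ (dφ_le (tau_mem _ h)) _).trans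
    (mul_le_mul_of_nonneg_left ((norm_dtau_le _ hξ h η).trans ?_) (G.B_nonneg α))
  gcongr
  exact le_abs_self _

theorem ddf {α β δ : A} {ξ : M n} (hξ : ξ ∈ ball (0 : M n) 3) (h : G.ψ δ ξ ∈ G.U α)
    (h' : G.ψ δ ξ ∈ G.U β) (η : M n) : fderiv ℝ (G.df δ α β) ξ η =
      fderiv ℝ (fun z => G.φ α (tau G.toAtl δ α z)) ξ η -
        fderiv ℝ (fun z => G.φ β (tau G.toAtl δ β z)) ξ η := by
  unfold Geo.df
  rw [fderiv_fun_sub ((G.φτ_at hξ h).differentiableAt (by norm_num))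
    ((G.φτ_at hξ h').differentiableAt (by norm_num))]
  rfl

theorem dg_le {α β δ : A} {ξ : M n} {f : M n → ℝ} (hξ : ξ ∈ ball (0 : M n) 3)
    (h : G.ψ δ ξ ∈ G.U α) (h' : G.ψ δ ξ ∈ G.U β) (hf : CR (G.df δ α β) f ξ) :
    ‖fderiv ℝ f ξ‖ ≤ 2 * (G.B * |G.C|) := by
  have := G.B_nonneg α
  refine ContinuousLinearMap.opNorm_le_bound _ (by positivity) fun η => ?_
  have e : η = I • (-I • η) := by rw [smul_smul, mul_neg, I_mul_I, neg_neg, one_smul]
  have e' : ‖-I • η‖ = ‖η‖ := by simp [norm_smul]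
  have h1 := dφτ_le hξ h (-I • η)
  have h2 := dφτ_le hξ h' (-I • η)
  rw [e'] at h1 h2
  rw [e, hf.2.self_of_nhds, ddf hξ h h', ← e, Real.norm_eq_abs]
  refine (abs_sub _ _).trans ?_
  linarith

variable (k : Kit0 G) (g : A → A → Y → ℝ)

/-- the averaged conjugate function -/
def U (δ : A) (y : Y) : ℝ := ∑ β ∈ k.nb δ, th k β y * g δ β y

/-- the primitive -/
def γ (δ : A) (ξ : M n) : Cv n := fderiv ℝ (G.φ δ) ξ - (fderiv ℝ (U k g δ ∘ G.ψ δ) ξ).comp J

variable {g} (hg : Glob G.U G.Cj g) {δ ε β : A} {ξ : M n}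
include hg

theorem U_eq (hξ : ξ ∈ ball (0 : M n) 3) (h : G.ψ δ ξ ∈ G.U ε) :
    U k g δ (G.ψ δ ξ) = U k g ε (G.ψ δ ξ) + g δ ε (G.ψ δ ξ) := by
  have h1 : U k g ε (G.ψ δ ξ) = ∑ β ∈ k.nb δ, th k β (G.ψ δ ξ) * g ε β (G.ψ δ ξ) := by
    rw [← fin k hξ fun α e => by rw [th_zero k e, zero_mul]]
    obtain ⟨ζ, hζ, e⟩ := h
    rw [← e]
    exact (fin k hζ fun α e => by rw [th_zero k e, zero_mul]).symm
  rw [h1, ← one_mul (g δ ε _), ← th_sum k (β := δ) hξ, Finset.sum_mul, ← Finset.sum_add_distrib]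
  refine Finset.sum_congr rfl fun β _ => ?_
  by_cases h0 : th k β (G.ψ δ ξ) = 0
  · simp [h0]
  · have := hg.2 δ ε β _ ⟨ξ, hξ, rfl⟩ h (Kc_sub β (th_supp k h0))
    linear_combination (-th k β (G.ψ δ ξ)) * this

omit hg in
theorem term_zero [T2Space Y] (hξ : ξ ∈ ball (0 : M n) 3) (h : G.ψ δ ξ ∉ G.Kc β) :
    (fun z => th k β (G.ψ δ z) * g δ β (G.ψ δ z)) =ᶠ[𝓝 ξ] fun _ => 0 := by
  filter_upwards [pull G.toAtl hξ
    ((isClosed_image G.toAtl β 0 (cb_sub (by norm_num))).isOpen_compl.mem_nhds h)] with z hz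
  rw [not_not.1 fun e => hz (th_supp k e), zero_mul]

theorem term_at [T2Space Y] (hξ : ξ ∈ ball (0 : M n) 3) (β : A) :
    ContDiffAt ℝ 2 (fun z => th k β (G.ψ δ z) * g δ β (G.ψ δ z)) ξ := by
  obtain ⟨a, ha⟩ := th_bd k
  by_cases h : G.ψ δ ξ ∈ G.Kc β
  · exact (ha β δ ξ hξ).sm2.mul (hg.1 δ β _ ⟨ξ, hξ, rfl⟩ (Kc_sub β h) δ ξ hξ rfl).1
  · exact contDiffAt_const.congr_of_eventuallyEq (term_zero k hξ h)

theorem U_at [T2Space Y] (hξ : ξ ∈ ball (0 : M n) 3) : ContDiffAt ℝ 2 (U k g δ ∘ G.ψ δ) ξ :=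
  ContDiffAt.sum fun β _ => term_at k hg hξ β

theorem γ_at [T2Space Y] (hξ : ξ ∈ ball (0 : M n) 3) : ContDiffAt ℝ 1 (γ k g δ) ξ :=
  ((G.φ_at2 hξ).fderiv_right (by norm_num)).sub
    (((U_at k hg hξ).fderiv_right (by norm_num)).clm_comp contDiffAt_const)

theorem form [T2Space Y] : Form G.toAtl (γ k g) := by
  refine ⟨fun δ ξ hξ => (γ_at k hg hξ).contDiffWithinAt, fun δ ε ξ hξ h η => ?_⟩
  have hζ := tau_mem G.toAtl h
  have e := psi_tau G.toAtl h
  have h1 := hg.1 δ ε _ ⟨ξ, hξ, rfl⟩ h δ ξ hξ rfl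
  have h2 : U k g δ ∘ G.ψ δ =ᶠ[𝓝 ξ] fun z => (U k g ε ∘ G.ψ δ) z + (g δ ε ∘ G.ψ δ) z := by
    filter_upwards [isOpen_ball.mem_nhds hξ, ev_mem G.toAtl hξ h] with z h3 h4
      using U_eq k hg h3 h4
  have h3 := U_at k hg (δ := ε) hζ
  have h4 := (G.contDiffAt_chart (m := 2) (by norm_num) hξ hζ e h3).differentiableAt two_ne_zero
  have h5 : (fun z => G.φ δ (tau G.toAtl δ δ z)) =ᶠ[𝓝 ξ] G.φ δ := by
    filter_upwards [G.tau_self (δ := δ) hξ] with z hz
    rw [hz]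
  simp only [γ, sub_apply, ContinuousLinearMap.comp_apply, J_apply]
  rw [h2.fderiv_eq, fderiv_fun_add h4 (h1.1.differentiableAt two_ne_zero),
    add_apply, h1.2.self_of_nhds, ddf hξ ⟨ξ, hξ, rfl⟩ h, h5.fderiv_eq,
    dφτ hξ h, fderiv_chart G.toAtl hξ hζ e (h3.differentiableAt two_ne_zero), map_smul]
  ring

theorem dγ [T2Space Y] (hξ : ξ ∈ ball (0 : M n) 3) (η : M n) :
    hq (fderiv ℝ (γ k g δ) ξ) η = lev (G.φ δ) ξ η := by
  have h1 := U_at k hg (δ := δ) hξ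
  have h2 := (h1.fderiv_right (m := 1) (by norm_num)).differentiableAt one_ne_zero
  have h3 := ((G.φ_at2 (α := δ) hξ).fderiv_right (m := 1) (by norm_num)).differentiableAt
    one_ne_zero
  have key : ∀ u v, fderiv ℝ (γ k g δ) ξ u v =
      D2 (G.φ δ) ξ u v - D2 (U k g δ ∘ G.ψ δ) ξ u (I • v) := fun u v => by
    rw [← ev ((γ_at k hg hξ).differentiableAt one_ne_zero), D2, D2, ← ev h2, ← ev h3,
      ← sub_apply, ← fderiv_fun_sub (h3.clm_apply (differentiableAt_const _))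
        (h2.clm_apply (differentiableAt_const _))]
    rfl
  have h4 : D2 (U k g δ ∘ G.ψ δ) ξ η (I • η) = D2 (U k g δ ∘ G.ψ δ) ξ (I • η) η :=
    (h1.isSymmSndFDerivAt (by simp)).eq _ _
  rw [← hq_D2, hq, hq, key, key, smul_smul, I_mul_I, neg_one_smul, map_neg, h4]
  ring

theorem bd1 [T2Space Y] {C : ℝ} (hC : ∀ α β y, y ∈ G.Kc α → y ∈ G.Kc β → |g α β y| ≤ C) :
    ∃ D : ℝ, ∀ δ, ∀ ξ ∈ ball (0 : M n) 1, ‖γ k g δ ξ‖ ≤ D := by
  obtain ⟨a, ha⟩ := th_bd k
  refine ⟨G.B + k.K₀ * (a * (2 * (G.B * |G.C|)) + C * a), fun δ ξ hξ => ?_⟩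
  have h3 := b13 hξ
  have hK : G.ψ δ ξ ∈ G.Kc δ :=
    ⟨ξ, closedBall_subset_closedBall (by norm_num) (ball_subset_closedBall hξ), rfl⟩
  have a0 := (ha δ δ ξ h3).nonneg
  have C0 := (abs_nonneg _).trans (hC δ δ _ hK hK)
  have B0 := G.B_nonneg δ
  have h1 : ∀ β, ‖fderiv ℝ (fun z => th k β (G.ψ δ z) * g δ β (G.ψ δ z)) ξ‖ ≤
      a * (2 * (G.B * |G.C|)) + C * a := fun β => by
    by_cases h : G.ψ δ ξ ∈ G.Kc β
    · have h4 := hg.1 δ β _ ⟨ξ, h3, rfl⟩ (Kc_sub β h) δ ξ h3 rfl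
      have h5 := ha β δ ξ h3
      have h6 := fderiv_fun_mul h5.dif (h4.1.differentiableAt two_ne_zero)
      refine (le_of_eq (congrArg norm h6)).trans ((norm_add_le _ _).trans (add_le_add ?_ ?_))
      · rw [norm_smul]
        exact mul_le_mul h5.v (dg_le h3 ⟨ξ, h3, rfl⟩ (Kc_sub β h) h4) (norm_nonneg _) a0
      · rw [norm_smul]
        exact mul_le_mul (hC δ β _ hK h) h5.g (norm_nonneg _) C0
    · rw [(term_zero k h3 h).fderiv_eq, fderiv_fun_const]
      simp only [Pi.zero_apply, norm_zero]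
      positivity
  have h2 : ‖fderiv ℝ (U k g δ ∘ G.ψ δ) ξ‖ ≤ k.K₀ * (a * (2 * (G.B * |G.C|)) + C * a) := by
    have h4 := fderiv_fun_sum (𝕜 := ℝ) (u := k.nb δ) fun β _ =>
      (term_at k hg (δ := δ) h3 β).differentiableAt two_ne_zero
    refine (le_of_eq (congrArg norm h4)).trans ((norm_sum_le _ _).trans
      ((Finset.sum_le_card_nsmul _ _ _ fun β _ => h1 β).trans ?_))
    rw [nsmul_eq_mul]
    exact mul_le_mul_of_nonneg_right (k.nb_card δ) (by positivity)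
  refine (norm_sub_le _ _).trans (add_le_add (dφ_le h3) ?_)
  refine ContinuousLinearMap.opNorm_le_bound _ ((norm_nonneg _).trans h2) fun η => ?_
  refine (ContinuousLinearMap.le_of_opNorm_le _ h2 (J η)).trans (le_of_eq ?_)
  simp [J_apply, norm_smul]

end Prm

theorem prm [T2Space Y] (k : Kit0 G) (h : BGlob G.U G.Kc G.Cj) : Nonempty (Prim G) := by
  obtain ⟨g, C, hg, hC⟩ := h
  obtain ⟨D, hD⟩ := Prm.bd1 k hg hC
  refine ⟨⟨Prm.γ k g, D * |G.C|, Prm.form k hg, fun δ ξ hξ => ?_,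
    fun δ ξ hξ => Prm.dγ k hg hξ⟩⟩
  obtain ⟨ε, ζ, hζ, e⟩ := G.cov (G.ψ δ ξ)
  have h1 := hD ε ζ hζ
  have D0 := (norm_nonneg _).trans h1
  refine ContinuousLinearMap.opNorm_le_bound _ (by positivity) fun η => ?_
  rw [(Prm.form k hg).2 δ ε ξ hξ ⟨ζ, b13 hζ, e⟩, tau_eq G.toAtl (b13 hζ) e, mul_assoc]
  refine (ContinuousLinearMap.le_of_opNorm_le _ h1 _).trans
    (mul_le_mul_of_nonneg_left ((norm_dtau_le _ hξ ⟨ζ, b13 hζ, e⟩ η).trans ?_) D0)
  gcongr
  exact le_abs_self _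

end Pool.Agent.MP_8ac6f3_ag.KH

end

end MrgPart13

-- marker of a merged file
example : 731051 + 881684 = 731051 + 881684 := rfl
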