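import Pool.Agent.MP_8ac6f3_ag.kh.Top
import Pool.Agent.MP_8ac6f3_ag.kh8.Prm

/-! The rows of the second stage of PROJECT KH put together. -/

open scoped Manifold ContDiff

namespace Pool.Agent.MP_8ac6f3_ag.KH

theorem kh_hyp {n : ℕ} (X : Type) [TopologicalSpace X] [T2Space X] [CompactSpace X]
    [ConnectedSpace X] [ChartedSpace (M n) X] [IsManifold 𝓘(ℂ, M n) ω X] (h : X → M n → ℝ)
    (hk : IsKaehler h) (x₀ : X) (hyp : HypGrp (FundamentalGroup X x₀)) (Y : Type)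
    [TopologicalSpace Y] [ContractibleSpace Y] [ChartedSpace (M n) Y]
    [IsManifold 𝓘(ℂ, M n) ω Y] (p : Y → X) (hp : IsCoveringMap p)
    (hp' : IsLocalDiffeomorph 𝓘(ℂ, M n) 𝓘(ℂ, M n) ω p) : Stein (M n) Y := by
  have := t2_of_cover hp
  have : LocallyPathConnectedSpace Y := ChartedSpace.locallyPathConnectedSpace (M n) Y
  obtain ⟨Γ, _, _, hq, ⟨e⟩⟩ := deck X Y p hp x₀
  obtain ⟨A, G, _, hL, hA⟩ := geo3 X h hk Y p Γ hq hp'
  obtain ⟨k⟩ := kit0 (lip G.toAtl)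
  have hl := loc (ballS G)
  obtain ⟨P⟩ := prm k (bnd hl h1 (eqv hA k) (Pot2.of_equiv (potential hyp) e)
    (glob hl h1 (scl (lip _) (ballS G))))
  exact stein_of_prim hL.hol P

end Pool.Agent.MP_8ac6f3_ag.KH
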